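import Mathlib
import Pool.Agent.Helper7.PD.Closure

/-!
# BD: hitting sets for the border of sums of few products: definitions

Paper proof: team store, `memo_MP_c2aa42_lc_helper5_border.md`.
-/

namespace Pool.Agent.Helper5.BD

open MvPolynomial Filter Topology

/-- A product of `s` affine forms and of a polynomial of degree `≤ p` with translation rank `≤ ρ`. -/
def IsTerm {n : ℕ} (s p ρ : ℕ) (T : MvPolynomial (Fin n) ℂ) : Prop :=
  ∃ (P : MvPolynomial (Fin n) ℂ) (l : Fin s → MvPolynomial (Fin n) ℂ),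
    P.totalDegree ≤ p ∧ Helper7.PD.RankLe ρ P ∧ (∀ j, (l j).totalDegree ≤ 1) ∧ T = P * ∏ j, l j

/-- Coefficientwise limits of sums of `k` terms. -/
def Border {n : ℕ} (k s p ρ : ℕ) (f : MvPolynomial (Fin n) ℂ) : Prop :=
  ∃ T : ℕ → Fin k → MvPolynomial (Fin n) ℂ, (∀ t i, IsTerm s p ρ (T t i)) ∧
    ∀ m, Tendsto (fun t => coeff m (∑ i, T t i)) atTop (𝓝 (coeff m f))

/-- The point variables `y`. -/
noncomputable def yv {n : ℕ} (i : Fin n) : MvPolynomial (Fin (n + n)) ℂ := X (Fin.castAdd n i)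

/-- The direction variables `x`. -/
noncomputable def xv {n : ℕ} (i : Fin n) : MvPolynomial (Fin (n + n)) ℂ := X (Fin.natAdd n i)

/-- `u (y + w x)`, a polynomial in `w`. -/
noncomputable def G (n : ℕ) :
    MvPolynomial (Fin n) ℂ →ₐ[ℂ] Polynomial (MvPolynomial (Fin (n + n)) ℂ) :=
  aeval fun i => Polynomial.C (yv i) + Polynomial.X * Polynomial.C (xv i)

/-- The coefficient of `w ^ b` in `u (y + w x)`. -/
noncomputable def H (n b : ℕ) (u : MvPolynomial (Fin n) ℂ) : MvPolynomial (Fin (n + n)) ℂ :=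
  (G n u).coeff b

/-- `u (α + z x)`, a polynomial in `z`. -/
noncomputable def line {n : ℕ} (α x : Fin n → ℂ) : MvPolynomial (Fin n) ℂ →ₐ[ℂ] Polynomial ℂ :=
  aeval fun i => Polynomial.C (α i) + Polynomial.X * Polynomial.C (x i)

/-- The coefficients `m_a` of the operator `u ↦ det [(H b (U i)) | H b u]`. -/
noncomputable def minor {n r : ℕ} (U : Fin r → MvPolynomial (Fin n) ℂ) (a : Fin (r + 1)) :
    MvPolynomial (Fin (n + n)) ℂ :=
  (-1) ^ ((a : ℕ) + r) * Matrix.det (Matrix.of fun b i : Fin r => H n (a.succAbove b) (U i))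

/-- The substitution `y ↦ β + z' y`, `x ↦ x` with values in power series in `z'`. -/
noncomputable def loc {n : ℕ} (β : Fin n → ℂ) :
    MvPolynomial (Fin (n + n)) ℂ →ₐ[ℂ] PowerSeries (MvPolynomial (Fin (n + n)) ℂ) :=
  aeval (Fin.append (fun i => PowerSeries.C (C (β i)) + PowerSeries.X * PowerSeries.C (yv i))
    (fun i => PowerSeries.C (xv i)))

/-- The linear part of `l` at `y`. -/
noncomputable def linY {n : ℕ} (l : MvPolynomial (Fin n) ℂ) : MvPolynomial (Fin (n + n)) ℂ :=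
  ∑ i, C (coeff (Finsupp.single i 1) l) * yv i

/-- The linear part of `l` at `x`. -/
noncomputable def linX {n : ℕ} (l : MvPolynomial (Fin n) ℂ) : MvPolynomial (Fin (n + n)) ℂ :=
  ∑ i, C (coeff (Finsupp.single i 1) l) * xv i

/-- The inverse of `l (β + z' y) = l (β) + z' linY l` (for `l (β) ≠ 0`). -/
noncomputable def linv {n : ℕ} (β : Fin n → ℂ) (l : MvPolynomial (Fin n) ℂ) :
    PowerSeries (MvPolynomial (Fin (n + n)) ℂ) :=
  PowerSeries.mk fun m => C ((-1) ^ m * (eval β l)⁻¹ ^ (m + 1)) * linY l ^ m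

/-- `λ = linX l / l (β + z' y)`. -/
noncomputable def lam {n : ℕ} (β : Fin n → ℂ) (l : MvPolynomial (Fin n) ℂ) :
    PowerSeries (MvPolynomial (Fin (n + n)) ℂ) :=
  PowerSeries.C (linX l) * linv β l

/-- The coefficient of `w ^ b` in `∏ j, (1 + w λ j)`. -/
noncomputable def esy {n s : ℕ} (lm : Fin s → PowerSeries (MvPolynomial (Fin n) ℂ)) (b : ℕ) :
    PowerSeries (MvPolynomial (Fin n) ℂ) :=
  (∏ j, (1 + Polynomial.X * Polynomial.C (lm j))).coeff b

/-- `[w ^ b] T (y + w x) / ∏ j, l j (y)` at `y = β + z' y`, for `T = P * ∏ j, l j`. -/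
noncomputable def ent {n s : ℕ} (β : Fin n → ℂ) (P : MvPolynomial (Fin n) ℂ)
    (l : Fin s → MvPolynomial (Fin n) ℂ) (b : ℕ) : PowerSeries (MvPolynomial (Fin (n + n)) ℂ) :=
  ∑ c ∈ Finset.HasAntidiagonal.antidiagonal b, loc β (H n c.1 P) * esy (fun j => lam β (l j)) c.2

/-- The coefficients of `z' ^ m`, `m ≤ D`, have translation rank `≤ R`. -/
def CR {n : ℕ} (D R : ℕ) (U : PowerSeries (MvPolynomial (Fin n) ℂ)) : Prop :=
  ∀ m ≤ D, Helper7.PD.RankLe R (PowerSeries.coeff m U)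

/-- Convergence of all coefficients. -/
def PTendsto {n : ℕ} (F : Ultrafilter ℕ) (u : ℕ → MvPolynomial (Fin n) ℂ)
    (v : MvPolynomial (Fin n) ℂ) : Prop :=
  ∀ m, Tendsto (fun t => coeff m (u t)) F (𝓝 (coeff m v))

/-- Convergence of all coefficients of a power series at all points. -/
def STendsto {n : ℕ} (F : Ultrafilter ℕ) (U : ℕ → PowerSeries (MvPolynomial (Fin n) ℂ))
    (V : PowerSeries (MvPolynomial (Fin n) ℂ)) : Prop :=
  ∀ (v : Fin n → ℂ) (m : ℕ), Tendsto (fun t => eval v (PowerSeries.coeff m (U t))) F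
    (𝓝 (eval v (PowerSeries.coeff m V)))

/-! ## Basic identities -/

theorem H_apply {n : ℕ} (b : ℕ) (u : MvPolynomial (Fin n) ℂ) : H n b u = (G n u).coeff b := rfl

theorem H_add {n : ℕ} (b : ℕ) (u v : MvPolynomial (Fin n) ℂ) : H n b (u + v) = H n b u + H n b v := by
  simp [H]

theorem H_zero {n : ℕ} (b : ℕ) : H n b (0 : MvPolynomial (Fin n) ℂ) = 0 := by
  simp [H]

theorem H_sum {n : ℕ} {ι : Type*} (b : ℕ) (s : Finset ι) (u : ι → MvPolynomial (Fin n) ℂ) :
    H n b (∑ i ∈ s, u i) = ∑ i ∈ s, H n b (u i) := by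
  simp [H]

theorem H_C_mul {n : ℕ} (b : ℕ) (c : ℂ) (u : MvPolynomial (Fin n) ℂ) :
    H n b (C c * u) = C c * H n b u := by
  rw [← MvPolynomial.smul_eq_C_mul, ← MvPolynomial.smul_eq_C_mul, H, H, map_smul,
    Polynomial.coeff_smul]

/-- Evaluation of `H b u` at the point `y` and the direction `x`. -/
theorem eval_H {n : ℕ} (b : ℕ) (u : MvPolynomial (Fin n) ℂ) (y x : Fin n → ℂ) :
    eval (Fin.append y x) (H n b u) = (line y x u).coeff b := by
  have h : (Polynomial.mapRingHom (eval (Fin.append y x))).comp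
      (G n : MvPolynomial (Fin n) ℂ →+* Polynomial (MvPolynomial (Fin (n + n)) ℂ)) =
      (line y x : MvPolynomial (Fin n) ℂ →+* Polynomial ℂ) := by
    apply MvPolynomial.ringHom_ext
    · intro c
      simp [G, line, MvPolynomial.algebraMap_eq, Polynomial.algebraMap_apply]
    · intro i
      have h1 : Fin.append y x (Fin.castAdd n i) = y i := Fin.append_left _ _ _
      have h2 : Fin.append y x (Fin.natAdd n i) = x i := Fin.append_right _ _ _
      rw [RingHom.comp_apply, RingHom.coe_coe, RingHom.coe_coe, G, line, aeval_X, aeval_X, yv, xv,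
        map_add, map_mul, Polynomial.coe_mapRingHom, Polynomial.map_C, Polynomial.map_C,
        Polynomial.map_X, eval_X, eval_X, h1, h2]
  have h1 := congrArg (fun φ => (φ u).coeff b) h
  simpa [H] using h1

end Pool.Agent.Helper5.BD
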