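import Mathlib
import Pool.Agent.Helper5.BD.Defs

/-!
# BD-05: limits of bounded families of polynomials along an ultrafilter

* `exists_lim`: for each `m` the bounded sequence `coeff m (u t)` converges along the ultrafilter `F`
  (`isCompact_closedBall`, `IsCompact.ultrafilter_le_nhds'` or `Ultrafilter.map`); the limit is `0` for
  `m.degree > D`, so the limits are the coefficients of a polynomial (sum of the monomials over the
  finite set of the `m` of degree `≤ D`; e.g. the finite set `Finset.univ.pi…`/`finsuppAntidiag`, or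
  `{m | ∀ i, m i ≤ D}` which is finite: `Set.finite_Iic`).
* `tendsto_linear`: a linear functional of polynomials of degree `≤ D` is a finite linear combination of
  the coefficients.
-/

namespace Pool.Agent.Helper5.BD

open MvPolynomial Filter Topology

private noncomputable def h86S (n D : ℕ) : Finset (Fin n →₀ ℕ) :=
  (Finset.Iic (Finsupp.equivFunOnFinite.symm (fun _ => D) : Fin n →₀ ℕ)).filter
    fun m => ∑ i ∈ m.support, m i ≤ D

private theorem h86_mem {n D : ℕ} (m : Fin n →₀ ℕ) :
    m ∈ h86S n D ↔ ∑ i ∈ m.support, m i ≤ D := by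
  unfold h86S
  rw [Finset.mem_filter, Finset.mem_Iic]
  refine ⟨fun h => h.2, fun h => ⟨?_, h⟩⟩
  intro i
  show m i ≤ D
  by_cases hi : i ∈ m.support
  · exact (Finset.single_le_sum (f := fun i => m i) (fun _ _ => Nat.zero_le _) hi).trans h
  · rw [Finsupp.notMem_support_iff.1 hi]
    exact Nat.zero_le _

private theorem h86_coeff {n D : ℕ} {u : MvPolynomial (Fin n) ℂ} (h : u.totalDegree ≤ D)
    {m : Fin n →₀ ℕ} (hm : m ∉ h86S n D) : coeff m u = 0 := by
  rw [h86_mem, not_le] at hm
  exact coeff_eq_zero_of_totalDegree_lt (lt_of_le_of_lt h hm)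

private theorem h86_sum {n D : ℕ} {u : MvPolynomial (Fin n) ℂ} (h : u.totalDegree ≤ D) :
    u = ∑ m ∈ h86S n D, monomial m (coeff m u) := by
  conv_lhs => rw [as_sum u]
  refine Finset.sum_subset ?_ ?_
  · intro m hm
    by_contra hcon
    exact (mem_support_iff.1 hm) (h86_coeff h hcon)
  · intro m _ hm
    rw [notMem_support_iff.1 hm, map_zero]

theorem exists_lim {n D : ℕ} (F : Ultrafilter ℕ) (u : ℕ → MvPolynomial (Fin n) ℂ)
    (hD : ∀ᶠ t in (F : Filter ℕ), (u t).totalDegree ≤ D)
    (hb : ∀ᶠ t in (F : Filter ℕ), ∀ m, ‖coeff m (u t)‖ ≤ 1) :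
    ∃ v : MvPolynomial (Fin n) ℂ, v.totalDegree ≤ D ∧ PTendsto F u v := by
  classical
  have hc : ∀ m : Fin n →₀ ℕ, ∃ c : ℂ, Tendsto (fun t => coeff m (u t)) F (𝓝 c) := by
    intro m
    have h1 : ((F.map fun t => coeff m (u t) : Ultrafilter ℂ) : Filter ℂ) ≤
        𝓟 (Metric.closedBall 0 1) := by
      rw [Filter.le_principal_iff, Ultrafilter.coe_map, Filter.mem_map]
      filter_upwards [hb] with t ht
      show coeff m (u t) ∈ Metric.closedBall (0 : ℂ) 1
      rw [mem_closedBall_zero_iff]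
      exact ht m
    obtain ⟨c, -, hc⟩ := (isCompact_closedBall (0 : ℂ) 1).ultrafilter_le_nhds _ h1
    exact ⟨c, hc⟩
  choose c hc using hc
  refine ⟨∑ m ∈ h86S n D, monomial m (c m), ?_, ?_⟩
  · refine (totalDegree_finsetSum_le fun m hm => ?_)
    refine (totalDegree_monomial_le _ _).trans ?_
    exact (h86_mem m).1 hm
  · intro m
    rw [coeff_sum]
    simp only [coeff_monomial]
    rw [Finset.sum_ite_eq' (h86S n D) m c]
    split_ifs with hm
    · exact hc m
    · refine tendsto_const_nhds.congr' ?_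
      filter_upwards [hD] with t ht
      exact (h86_coeff ht hm).symm

theorem tendsto_linear {n D : ℕ} (F : Ultrafilter ℕ) {u : ℕ → MvPolynomial (Fin n) ℂ}
    {v : MvPolynomial (Fin n) ℂ} (hD : ∀ᶠ t in (F : Filter ℕ), (u t).totalDegree ≤ D)
    (hv : v.totalDegree ≤ D) (h : PTendsto F u v) (Λ : MvPolynomial (Fin n) ℂ →ₗ[ℂ] ℂ) :
    Tendsto (fun t => Λ (u t)) F (𝓝 (Λ v)) := by
  have key : ∀ w : MvPolynomial (Fin n) ℂ, w.totalDegree ≤ D →
      Λ w = ∑ m ∈ h86S n D, coeff m w * Λ (monomial m 1) := by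
    intro w hw
    conv_lhs => rw [h86_sum hw]
    rw [map_sum]
    refine Finset.sum_congr rfl fun m _ => ?_
    rw [← smul_eq_mul, ← map_smul, smul_monomial, smul_eq_mul, mul_one]
  rw [key v hv]
  refine (tendsto_finsetSum _ fun m _ => (h m).mul_const _).congr' ?_
  filter_upwards [hD] with t ht
  exact (key (u t) ht).symm

end Pool.Agent.Helper5.BD
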