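import Mathlib
import Pool.Agent.Helper5.BD.Defs

/-!
# BD-04: the translation rank is a closed condition

Take `q` maximal such that there are points `a b : Fin q → (Fin n → ℂ)` with
`det (eval (a i + b j) g)_{i, j < q} ≠ 0`. Then `q ≤ R`: for `q > R` the determinants
`det (eval (a i + b j) (f t))` vanish for the `t` with `RankLe R (f t)` (the matrix is a product of a
`q × R` and an `R × q` matrix: `Matrix.det_of_mul...`, or rank `≤ R < q`: `Matrix.rank_mul_le_left`,
`Matrix.rank_le_width`, and a nonzero determinant means rank `q`), and converge to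
`det (eval (a i + b j) g)` (continuity of `det`: it is a finite sum of finite products,
`tendsto_finset_sum`, `tendsto_finset_prod`, or `Continuous.matrix_det`), so the limit is `0`.
(So such a `q` exists: `q ≤ R` always, `q = 0` works.)
With `N = (eval (a i + b j) g)_{i,j<q}` invertible and all bordered determinants `0`:
`eval (x + y) g = ∑ i j, eval (x + b j) g * (N⁻¹) j i * eval (a i + y) g`
(`Matrix.det_fromBlocks₁₁` for the block matrix with blocks `N`, column, row, `1 × 1`; reindex
`Fin q ⊕ Unit` to `Fin (q + 1)`, or work with index types `Fin q ⊕ Unit` from the start).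
So `RankLe q g` with `A i = ∑ j, C (N⁻¹ j i) * (g translated by b j)`, `B i = g translated by a i`
(translation by `b`: `aeval (fun k => X k + C (b k)) g`, with `eval x (…) = eval (x + b) g`), and
`RankLe.mono`.
-/

namespace Pool.Agent.Helper5.BD

open MvPolynomial Filter Topology

private noncomputable def trans85 {n : ℕ} (b : Fin n → ℂ) (g : MvPolynomial (Fin n) ℂ) :
    MvPolynomial (Fin n) ℂ := aeval (fun k => X k + C (b k)) g

private theorem eval_trans85 {n : ℕ} (b x : Fin n → ℂ) (g : MvPolynomial (Fin n) ℂ) :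
    eval x (trans85 b g) = eval (x + b) g := by
  unfold trans85
  have h : (eval x).comp ((aeval (fun k => X k + C (b k)) :
      MvPolynomial (Fin n) ℂ →ₐ[ℂ] MvPolynomial (Fin n) ℂ) : _ →+* _) = eval (x + b) := by
    apply MvPolynomial.ringHom_ext
    · intro c
      simp [MvPolynomial.algebraMap_eq]
    · intro i
      simp
  exact RingHom.congr_fun h g

private theorem det_zero85 {n R q : ℕ} {f : MvPolynomial (Fin n) ℂ} (hf : Helper7.PD.RankLe R f)
    (hq : R < q) (a b : Fin q → Fin n → ℂ) :
    Matrix.det (Matrix.of fun i j => eval (a i + b j) f) = 0 := by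
  obtain ⟨A, B, hAB⟩ := hf
  by_contra hne
  have h1 : (Matrix.of fun i j => eval (a i + b j) f) =
      (Matrix.of fun (i : Fin q) (k : Fin R) => eval (a i) (A k)) *
        (Matrix.of fun (k : Fin R) (j : Fin q) => eval (b j) (B k)) := by
    ext i j
    rw [Matrix.mul_apply]
    exact hAB (a i) (b j)
  have h2 := Matrix.rank_of_isUnit _ ((Matrix.isUnit_iff_isUnit_det _).2
    (isUnit_iff_ne_zero.2 hne))
  rw [h1] at h2
  have h3 := Matrix.rank_mul_le_left
    (Matrix.of fun (i : Fin q) (k : Fin R) => eval (a i) (A k))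
    (Matrix.of fun (k : Fin R) (j : Fin q) => eval (b j) (B k))
  have h4 := Matrix.rank_le_width
    (Matrix.of fun (i : Fin q) (k : Fin R) => eval (a i) (A k))
  rw [h2, Fintype.card_fin] at h3
  omega

theorem rankLe_of_tendsto {n R : ℕ} (F : Ultrafilter ℕ) (f : ℕ → MvPolynomial (Fin n) ℂ)
    (g : MvPolynomial (Fin n) ℂ) (h : ∀ᶠ t in (F : Filter ℕ), Helper7.PD.RankLe R (f t))
    (hlim : ∀ x, Tendsto (fun t => eval x (f t)) F (𝓝 (eval x g))) :
    Helper7.PD.RankLe R g := by
  classical
  -- the determinants of size larger than R vanish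
  have hdet : ∀ q : ℕ, R < q → ∀ a b : Fin q → Fin n → ℂ,
      Matrix.det (Matrix.of fun i j => eval (a i + b j) g) = 0 := by
    intro q hq a b
    have h1 : Tendsto (fun t => Matrix.det (Matrix.of fun i j => eval (a i + b j) (f t))) F
        (𝓝 (Matrix.det (Matrix.of fun i j => eval (a i + b j) g))) := by
      simp only [Matrix.det_apply]
      refine tendsto_finsetSum _ fun σ _ => ?_
      refine Tendsto.const_smul ?_ _
      refine tendsto_finsetProd _ fun i _ => ?_
      exact hlim _
    have h2 : Tendsto (fun t => Matrix.det (Matrix.of fun i j => eval (a i + b j) (f t))) F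
        (𝓝 0) := by
      refine Tendsto.congr' ?_ tendsto_const_nhds
      filter_upwards [h] with t ht
      exact (det_zero85 ht hq a b).symm
    exact tendsto_nhds_unique h1 h2
  -- a maximal q
  obtain ⟨q, ⟨a, b, hab⟩, hmax⟩ : ∃ q : ℕ, (∃ a b : Fin q → Fin n → ℂ,
      Matrix.det (Matrix.of fun i j => eval (a i + b j) g) ≠ 0) ∧
      ∀ a b : Fin (q + 1) → Fin n → ℂ,
        Matrix.det (Matrix.of fun i j => eval (a i + b j) g) = 0 := by
    by_contra hcon
    push Not at hcon
    have hall : ∀ q : ℕ, ∃ a b : Fin q → Fin n → ℂ,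
        Matrix.det (Matrix.of fun i j => eval (a i + b j) g) ≠ 0 := by
      intro q
      induction q with
      | zero => exact ⟨Fin.elim0, Fin.elim0, by simp⟩
      | succ q ih => exact hcon q ih
    obtain ⟨a, b, hab⟩ := hall (R + 1)
    exact hab (hdet (R + 1) (Nat.lt_succ_self R) a b)
  have hqR : q ≤ R := by
    by_contra hcon
    exact hab (hdet q (by omega) a b)
  refine Helper7.PD.RankLe.mono ?_ hqR
  set N : Matrix (Fin q) (Fin q) ℂ := Matrix.of fun i j => eval (a i + b j) g with hN
  letI : Invertible N := Matrix.invertibleOfIsUnitDet N (isUnit_iff_ne_zero.2 hab)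
  refine ⟨fun i => ∑ j, C ((⅟N) j i) * trans85 (b j) g, fun i => trans85 (a i) g, fun x y => ?_⟩
  have h0 : Matrix.det (Matrix.fromBlocks N (Matrix.of fun (i : Fin q) (_ : Unit) =>
      eval (a i + y) g) (Matrix.of fun (_ : Unit) (j : Fin q) => eval (x + b j) g)
      (Matrix.of fun (_ : Unit) (_ : Unit) => eval (x + y) g)) = 0 := by
    have e : Fin (q + 1) ≃ Fin q ⊕ Unit :=
      (Fintype.equivFinOfCardEq (by simp)).symm
    rw [← Matrix.det_submatrix_equiv_self e, ← hmax (Sum.elim a (fun _ => x) ∘ e)
      (Sum.elim b (fun _ => y) ∘ e)]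
    congr 1
    ext i j
    simp only [Matrix.submatrix_apply, Matrix.of_apply, Function.comp_apply]
    rcases e i with i' | i' <;> rcases e j with j' | j' <;> simp [hN]
  rw [Matrix.det_fromBlocks₁₁] at h0
  have h1 := (mul_eq_zero.1 h0).resolve_left hab
  rw [Matrix.det_unique] at h1
  simp only [Matrix.sub_apply, Matrix.of_apply, Matrix.mul_apply, sub_eq_zero] at h1
  rw [h1]
  refine Finset.sum_congr rfl fun i _ => ?_
  rw [map_sum, eval_trans85, add_comm y (a i)]
  congr 1
  refine Finset.sum_congr rfl fun j _ => ?_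
  rw [map_mul, eval_C, eval_trans85, mul_comm]

end Pool.Agent.Helper5.BD
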