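import Mathlib
import Pool.Agent.Helper5.BD.Defs

/-!
# BD-12a: degrees

* `totalDegree_H`: `(G n u).coeff b` has total degree `≤ u.totalDegree` (sum over the monomials; the
  coefficients of `∏ i, (C (yv i) + X * C (xv i)) ^ m i` have degree `≤ ∑ m i`). It is convenient to prove
  once: if all coefficients of `P Q : Polynomial (MvPolynomial σ ℂ)` have degree `≤ a`, `≤ b`, those of
  `P * Q` have degree `≤ a + b`; the same for power series.
* `totalDegree_minor`: a determinant of size `r` of polynomials of degree `≤ q` (`Matrix.det_apply'`).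
* `PowerSeries.coeff m (loc β u)`: total degree `≤ u.totalDegree`; and it vanishes for
  `m > u.totalDegree` (each variable has degree `≤ 1` in `z'`).
* `totalDegree_coeff_linv_prod`: `coeff m (linv β l) = C _ * linY l ^ m` has degree `≤ m`; a product of power
  series with this property has it again (`PowerSeries.coeff_mul`, induction on the finite products).
-/

namespace Pool.Agent.Helper5.BD

open MvPolynomial

private theorem aeval_mem {n : ℕ} {R : Type*} [CommRing R] [Algebra ℂ R] (S : ℕ → Set R)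
    (h0 : ∀ a, (0 : R) ∈ S a) (hC : ∀ c : ℂ, algebraMap ℂ R c ∈ S 0)
    (hadd : ∀ a x y, x ∈ S a → y ∈ S a → x + y ∈ S a)
    (hmul : ∀ a b x y, x ∈ S a → y ∈ S b → x * y ∈ S (a + b))
    (hmono : ∀ a b x, a ≤ b → x ∈ S a → x ∈ S b) (f : Fin n → R) (hf : ∀ i, f i ∈ S 1)
    (u : MvPolynomial (Fin n) ℂ) : aeval f u ∈ S u.totalDegree := by
  have hpow : ∀ (i : Fin n) (e : ℕ), f i ^ e ∈ S e := by
    intro i e
    induction e with
    | zero =>
      rw [pow_zero, ← map_one (algebraMap ℂ R)]
      exact hC 1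
    | succ e ih =>
      rw [pow_succ]
      exact hmul _ _ _ _ ih (hf i)
  have hprod : ∀ (d : Fin n →₀ ℕ) (t : Finset (Fin n)), ∏ i ∈ t, f i ^ d i ∈ S (∑ i ∈ t, d i) := by
    intro d t
    induction t using Finset.induction_on with
    | empty =>
      rw [Finset.prod_empty, Finset.sum_empty, ← map_one (algebraMap ℂ R)]
      exact hC 1
    | insert a t ha ih =>
      rw [Finset.prod_insert ha, Finset.sum_insert ha]
      exact hmul _ _ _ _ (hpow a _) ih
  rw [aeval_def, eval₂_eq']
  have hsum : ∀ t ⊆ u.support, ∑ d ∈ t, algebraMap ℂ R (coeff d u) * ∏ i, f i ^ d i ∈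
      S u.totalDegree := by
    intro t
    induction t using Finset.induction_on with
    | empty =>
      intro _
      rw [Finset.sum_empty]
      exact h0 _
    | insert a t ha ih =>
      intro ht
      rw [Finset.sum_insert ha]
      refine hadd _ _ _ ?_ (ih fun x hx => ht (Finset.mem_insert_of_mem hx))
      have h1 := hmul _ _ _ _ (hC (coeff a u)) (hprod a Finset.univ)
      refine hmono _ _ _ ?_ h1
      have h2 := le_totalDegree (ht (Finset.mem_insert_self a t))
      rw [Finsupp.sum_fintype _ _ (fun _ => rfl)] at h2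
      omega
  exact hsum _ (Finset.Subset.refl _)

private theorem sum_deg {σ ι : Type*} {t : Finset ι} {f : ι → MvPolynomial σ ℂ} {d : ℕ}
    (h : ∀ i ∈ t, (f i).totalDegree ≤ d) : (∑ i ∈ t, f i).totalDegree ≤ d :=
  (totalDegree_finsetSum t f).trans (Finset.sup_le h)

private theorem yv_deg {n : ℕ} (i : Fin n) : (yv i).totalDegree ≤ 1 := by
  rw [yv, totalDegree_X]

private theorem xv_deg {n : ℕ} (i : Fin n) : (xv i).totalDegree ≤ 1 := by
  rw [xv, totalDegree_X]

private theorem ps_coeff_C_mul_X {σ : Type*} (a b : MvPolynomial σ ℂ) (m : ℕ) :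
    PowerSeries.coeff m (PowerSeries.C a + PowerSeries.X * PowerSeries.C b) =
      if m = 0 then a else if m = 1 then b else 0 := by
  rw [map_add, PowerSeries.coeff_C]
  rcases m with _ | m
  · simp
  · rw [if_neg (Nat.succ_ne_zero m), if_neg (Nat.succ_ne_zero m), zero_add,
      PowerSeries.coeff_succ_X_mul, PowerSeries.coeff_C]
    by_cases h : m = 0
    · simp [h]
    · simp [h]

theorem totalDegree_H {n : ℕ} (b : ℕ) (u : MvPolynomial (Fin n) ℂ) :
    (H n b u).totalDegree ≤ u.totalDegree := by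
  have h := aeval_mem (R := Polynomial (MvPolynomial (Fin (n + n)) ℂ))
    (fun a => {P | ∀ i, (P.coeff i).totalDegree ≤ a}) ?_ ?_ ?_ ?_ ?_
    (fun i => Polynomial.C (yv i) + Polynomial.X * Polynomial.C (xv i)) ?_ u
  · exact h b
  · intro a i
    simp
  · intro c i
    rw [Polynomial.algebraMap_apply, MvPolynomial.algebraMap_eq, Polynomial.coeff_C]
    split_ifs <;> simp
  · intro a x y hx hy i
    rw [Polynomial.coeff_add]
    exact (totalDegree_add _ _).trans (max_le (hx i) (hy i))
  · intro a b x y hx hy i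
    rw [Polynomial.coeff_mul]
    exact sum_deg fun z _ => (totalDegree_mul _ _).trans (add_le_add (hx _) (hy _))
  · intro a b x hab hx i
    exact (hx i).trans hab
  · intro i j
    rw [Polynomial.coeff_add, Polynomial.coeff_C]
    refine (totalDegree_add _ _).trans (max_le ?_ ?_)
    · split_ifs
      · exact yv_deg i
      · simp
    · rcases j with _ | j
      · simp
      · rw [Polynomial.coeff_X_mul, Polynomial.coeff_C]
        split_ifs
        · exact xv_deg i
        · simp

theorem totalDegree_minor {n r q : ℕ} (U : Fin r → MvPolynomial (Fin n) ℂ)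
    (h : ∀ i, (U i).totalDegree ≤ q) (a : Fin (r + 1)) : (minor U a).totalDegree ≤ r * q := by
  have h1 : ((-1 : MvPolynomial (Fin (n + n)) ℂ) ^ ((a : ℕ) + r)).totalDegree = 0 := by
    have h2 : (-1 : MvPolynomial (Fin (n + n)) ℂ) ^ ((a : ℕ) + r) = C ((-1) ^ ((a : ℕ) + r)) := by
      simp
    rw [h2, totalDegree_C]
  have h3 : (Matrix.det (Matrix.of fun b i : Fin r => H n (a.succAbove b) (U i))).totalDegree ≤
      r * q := by
    rw [Matrix.det_apply']
    refine sum_deg fun σ _ => ?_
    refine (totalDegree_mul _ _).trans ?_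
    have h4 : (((Equiv.Perm.sign σ : ℤˣ) : ℤ) : MvPolynomial (Fin (n + n)) ℂ).totalDegree = 0 := by
      have h5 : (((Equiv.Perm.sign σ : ℤˣ) : ℤ) : MvPolynomial (Fin (n + n)) ℂ) =
          C ((((Equiv.Perm.sign σ : ℤˣ) : ℤ) : ℂ)) := by
        simp
      rw [h5, totalDegree_C]
    rw [h4, zero_add]
    refine (totalDegree_finsetProd _ _).trans ?_
    calc ∑ i : Fin r, (Matrix.of (fun b i : Fin r => H n (a.succAbove b) (U i)) (σ i) i).totalDegree
        ≤ ∑ _i : Fin r, q := Finset.sum_le_sum fun i _ => (totalDegree_H _ _).trans (h i)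
      _ = r * q := by simp
  rw [minor]
  refine (totalDegree_mul _ _).trans ?_
  rw [h1, zero_add]
  exact h3

private theorem ps_algebraMap {σ : Type*} (c : ℂ) :
    algebraMap ℂ (PowerSeries (MvPolynomial σ ℂ)) c = PowerSeries.C (C c) := by
  rw [PowerSeries.algebraMap_apply, MvPolynomial.algebraMap_eq]

private theorem aeval_mem' {n : ℕ} (S : ℕ → Set (PowerSeries (MvPolynomial (Fin (n + n)) ℂ)))
    (β : Fin n → ℂ) (u : MvPolynomial (Fin (n + n)) ℂ)
    (h0 : ∀ a, 0 ∈ S a) (hC : ∀ c : ℂ, algebraMap ℂ _ c ∈ S 0)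
    (hadd : ∀ a x y, x ∈ S a → y ∈ S a → x + y ∈ S a)
    (hmul : ∀ a b x y, x ∈ S a → y ∈ S b → x * y ∈ S (a + b))
    (hmono : ∀ a b x, a ≤ b → x ∈ S a → x ∈ S b)
    (h1 : ∀ i, PowerSeries.C (C (β i)) + PowerSeries.X * PowerSeries.C (yv i) ∈ S 1)
    (h2 : ∀ i, PowerSeries.C (xv i) ∈ S 1) : loc β u ∈ S u.totalDegree := by
  refine aeval_mem S h0 hC hadd hmul hmono _ (fun i => ?_) u
  refine Fin.addCases (fun i => ?_) (fun i => ?_) i
  · rw [Fin.append_left]
    exact h1 i
  · rw [Fin.append_right]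
    exact h2 i

theorem totalDegree_coeff_loc {n : ℕ} (β : Fin n → ℂ) (u : MvPolynomial (Fin (n + n)) ℂ) (m : ℕ) :
    (PowerSeries.coeff m (loc β u)).totalDegree ≤ u.totalDegree := by
  have h := aeval_mem' (fun a => {U | ∀ i, (PowerSeries.coeff i U).totalDegree ≤ a}) β u ?_ ?_ ?_ ?_ ?_
    ?_ ?_
  · exact h m
  · intro a i
    simp
  · intro c i
    rw [ps_algebraMap, PowerSeries.coeff_C]
    split_ifs <;> simp
  · intro a x y hx hy i
    rw [map_add]
    exact (totalDegree_add _ _).trans (max_le (hx i) (hy i))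
  · intro a b x y hx hy i
    rw [PowerSeries.coeff_mul]
    exact sum_deg fun z _ => (totalDegree_mul _ _).trans (add_le_add (hx _) (hy _))
  · intro a b x hab hx i
    exact (hx i).trans hab
  · intro i j
    rw [ps_coeff_C_mul_X]
    split_ifs
    · simp
    · exact yv_deg i
    · simp
  · intro i j
    rw [PowerSeries.coeff_C]
    split_ifs
    · exact xv_deg i
    · simp

theorem coeff_loc_eq_zero {n : ℕ} (β : Fin n → ℂ) (u : MvPolynomial (Fin (n + n)) ℂ) {m : ℕ}
    (h : u.totalDegree < m) : PowerSeries.coeff m (loc β u) = 0 := by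
  have h' := aeval_mem' (fun a => {U | ∀ i, a < i → PowerSeries.coeff i U = 0}) β u ?_ ?_ ?_ ?_ ?_
    ?_ ?_
  · exact h' m h
  · intro a i _
    simp
  · intro c i hi
    rw [ps_algebraMap, PowerSeries.coeff_C, if_neg (by omega)]
  · intro a x y hx hy i hi
    rw [map_add, hx i hi, hy i hi, add_zero]
  · intro a b x y hx hy i hi
    rw [PowerSeries.coeff_mul]
    refine Finset.sum_eq_zero fun z hz => ?_
    rw [Finset.HasAntidiagonal.mem_antidiagonal] at hz
    by_cases h1 : a < z.1
    · rw [hx _ h1, zero_mul]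
    · rw [hy _ (by omega), mul_zero]
  · intro a b x hab hx i hi
    exact hx i (by omega)
  · intro i j hj
    rw [ps_coeff_C_mul_X, if_neg (by omega), if_neg (by omega)]
  · intro i j hj
    rw [PowerSeries.coeff_C, if_neg (by omega)]

theorem totalDegree_coeff_linv_prod {n r s : ℕ} (β : Fin n → ℂ)
    (l : Fin r → Fin s → MvPolynomial (Fin n) ℂ) (m : ℕ) :
    (PowerSeries.coeff m (∏ i, ∏ j, linv β (l i j))).totalDegree ≤ m := by
  have hY : ∀ u : MvPolynomial (Fin n) ℂ, (linY u).totalDegree ≤ 1 := by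
    intro u
    rw [linY]
    refine sum_deg fun i _ => (totalDegree_mul _ _).trans ?_
    rw [totalDegree_C, zero_add]
    exact yv_deg i
  have hlinv : ∀ (u : MvPolynomial (Fin n) ℂ) (m : ℕ),
      (PowerSeries.coeff m (linv β u)).totalDegree ≤ m := by
    intro u m
    rw [linv, PowerSeries.coeff_mk]
    refine (totalDegree_mul _ _).trans ?_
    rw [totalDegree_C, zero_add]
    refine (totalDegree_pow _ _).trans ?_
    calc m * (linY u).totalDegree ≤ m * 1 := Nat.mul_le_mul_left _ (hY u)
      _ = m := mul_one m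
  have hmul : ∀ U V : PowerSeries (MvPolynomial (Fin (n + n)) ℂ),
      (∀ m, (PowerSeries.coeff m U).totalDegree ≤ m) →
      (∀ m, (PowerSeries.coeff m V).totalDegree ≤ m) →
      ∀ m, (PowerSeries.coeff m (U * V)).totalDegree ≤ m := by
    intro U V hU hV m
    rw [PowerSeries.coeff_mul]
    refine sum_deg fun z hz => (totalDegree_mul _ _).trans ?_
    rw [Finset.HasAntidiagonal.mem_antidiagonal] at hz
    have := hU z.1
    have := hV z.2
    omega
  have hone : ∀ m, (PowerSeries.coeff m (1 : PowerSeries (MvPolynomial (Fin (n + n)) ℂ))).totalDegree ≤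
      m := by
    intro m
    rw [PowerSeries.coeff_one]
    split_ifs <;> simp
  have key : ∀ m, (PowerSeries.coeff m (∏ i, ∏ j, linv β (l i j))).totalDegree ≤ m := by
    refine Finset.prod_induction _
      (fun U : PowerSeries (MvPolynomial (Fin (n + n)) ℂ) =>
        ∀ m, (PowerSeries.coeff m U).totalDegree ≤ m) hmul hone fun i _ => ?_
    exact Finset.prod_induction _
      (fun U : PowerSeries (MvPolynomial (Fin (n + n)) ℂ) =>
        ∀ m, (PowerSeries.coeff m U).totalDegree ≤ m) hmul hone fun j _ => hlinv _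
  exact key m

end Pool.Agent.Helper5.BD
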