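import Mathlib
import Pool.Agent.Helper5.BD.Defs

/-!
# BD-12b: scalars and the moment curve

* `loc_injective`: at a point `(y, x)`, `Σ_m z^m eval (y, x) (coeff m (loc β u)) = eval (β + z y, x) u`; take
  `z = 1`: if all coefficients of `loc β u` vanish then `u` vanishes at every `(β + y, x)`
  (a clean way: compose `loc β` with the evaluation at `v` of the coefficients, `PowerSeries.map (eval v)`; this
  is the algebra map `MvPolynomial (Fin (n+n)) ℂ → PowerSeries ℂ` with `y_i ↦ C (β i) + X * C (y i)`,
  `x_i ↦ C (x i)`, which factors through `Polynomial ℂ`, `Polynomial.coe…`, as the composition of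
  `aeval` into `Polynomial ℂ` with `Polynomial.coeToPowerSeries.ringHom`).
* `exists_scalar`: at a fixed point `v = (y, x)` the power series is the polynomial
  `z ↦ eval (β + z y, x) u` of degree `≤ u.totalDegree`: if some coefficient is nonzero at `v` then some
  `z ∈ {0, …, D}` has `eval (β + z y, x) u ≠ 0` (a polynomial of degree `≤ D` with `D + 1` zeros is `0`:
  `Polynomial.eq_zero_of_natDegree_lt_card_of_eval_eq_zero'`).
* `exists_scalar_line`: `(line α x f).eval z = eval (fun i => α i + z * x i) f`, `natDegree ≤ totalDegree`.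
* `exists_moment`: `w ↦ eval (fun i => w ^ (i + 1)) (l)` is a nonzero polynomial of degree `≤ n` for every
  nonzero `l` of degree `≤ 1` (`l = C c + ∑ a_i X i`, the polynomial is `c + ∑ a_i w^(i+1)`); the product
  over the family has degree `≤ N * n`, so a natural number `w ≤ N * n` is no root.
-/

namespace Pool.Agent.Helper5.BD

open MvPolynomial

private noncomputable def pol {n : ℕ} (β y x : Fin n → ℂ) :
    MvPolynomial (Fin (n + n)) ℂ →ₐ[ℂ] Polynomial ℂ :=
  aeval (Fin.append (fun i => Polynomial.C (β i) + Polynomial.X * Polynomial.C (y i))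
    (fun i => Polynomial.C (x i)))

private theorem pol_coeff {n : ℕ} (β y x : Fin n → ℂ) (u : MvPolynomial (Fin (n + n)) ℂ) (m : ℕ) :
    eval (Fin.append y x) (PowerSeries.coeff m (loc β u)) = (pol β y x u).coeff m := by
  have h : (PowerSeries.map (eval (Fin.append y x))).comp
      (loc β : MvPolynomial (Fin (n + n)) ℂ →+* PowerSeries (MvPolynomial (Fin (n + n)) ℂ)) =
      (Polynomial.coeToPowerSeries.ringHom).comp
        (pol β y x : MvPolynomial (Fin (n + n)) ℂ →+* Polynomial ℂ) := by
    apply MvPolynomial.ringHom_ext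
    · intro c
      have h1 : (loc β) (C c) = PowerSeries.C (C c) := by
        rw [loc, aeval_C, PowerSeries.algebraMap_apply, MvPolynomial.algebraMap_eq]
      have h2 : (pol β y x) (C c) = Polynomial.C c := by
        rw [pol, aeval_C, Polynomial.algebraMap_apply]
        rfl
      rw [RingHom.comp_apply, RingHom.comp_apply, RingHom.coe_coe, RingHom.coe_coe, h1, h2,
        PowerSeries.map_C, eval_C, Polynomial.coeToPowerSeries.ringHom_apply, Polynomial.coe_C]
    · intro i
      have a1 : ∀ i : Fin n, Fin.append y x (Fin.castAdd n i) = y i := fun i => Fin.append_left _ _ _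
      have a2 : ∀ i : Fin n, Fin.append y x (Fin.natAdd n i) = x i := fun i => Fin.append_right _ _ _
      refine Fin.addCases (fun i => ?_) (fun i => ?_) i
      · rw [RingHom.comp_apply, RingHom.comp_apply, RingHom.coe_coe, RingHom.coe_coe, loc, pol,
          aeval_X, aeval_X, Fin.append_left, Fin.append_left, yv, map_add, map_mul,
          PowerSeries.map_C, PowerSeries.map_X, PowerSeries.map_C, eval_C, eval_X, a1,
          Polynomial.coeToPowerSeries.ringHom_apply, Polynomial.coe_add, Polynomial.coe_mul,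
          Polynomial.coe_C, Polynomial.coe_X, Polynomial.coe_C]
      · rw [RingHom.comp_apply, RingHom.comp_apply, RingHom.coe_coe, RingHom.coe_coe, loc, pol,
          aeval_X, aeval_X, Fin.append_right, Fin.append_right, xv, PowerSeries.map_C, eval_X, a2,
          Polynomial.coeToPowerSeries.ringHom_apply, Polynomial.coe_C]
  have h1 := congrArg (fun φ => PowerSeries.coeff m (φ u)) h
  simp only [RingHom.comp_apply, RingHom.coe_coe, PowerSeries.coeff_map,
    Polynomial.coeToPowerSeries.ringHom_apply, Polynomial.coeff_coe] at h1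
  exact h1

private theorem pol_eval {n : ℕ} (β y x : Fin n → ℂ) (u : MvPolynomial (Fin (n + n)) ℂ) (z : ℂ) :
    (pol β y x u).eval z = eval (Fin.append (fun i => β i + z * y i) x) u := by
  have h : (Polynomial.evalRingHom z).comp
      (pol β y x : MvPolynomial (Fin (n + n)) ℂ →+* Polynomial ℂ) =
      eval (Fin.append (fun i => β i + z * y i) x) := by
    apply MvPolynomial.ringHom_ext
    · intro c
      simp [pol]
    · intro i
      refine Fin.addCases (fun i => ?_) (fun i => ?_) i
      · rw [RingHom.comp_apply, RingHom.coe_coe, pol, aeval_X, Fin.append_left, eval_X,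
          Fin.append_left]
        simp
        ring
      · rw [RingHom.comp_apply, RingHom.coe_coe, pol, aeval_X, Fin.append_right, eval_X,
          Fin.append_right]
        simp
  exact congrArg (fun φ => φ u) h

private theorem exists_nat_ne {D : ℕ} (q : Polynomial ℂ) (hq : q ≠ 0) (hD : q.natDegree ≤ D) :
    ∃ z : ℕ, z ≤ D ∧ q.eval (z : ℂ) ≠ 0 := by
  by_contra hcon
  push Not at hcon
  refine hq (Polynomial.eq_zero_of_natDegree_lt_card_of_eval_eq_zero q
    (f := fun i : Fin (D + 1) => ((i : ℕ) : ℂ)) ?_ ?_ ?_)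
  · intro a b hab
    exact Fin.ext (Nat.cast_injective hab)
  · intro i
    exact hcon i (Nat.lt_succ_iff.1 i.isLt)
  · rw [Fintype.card_fin]
    omega

theorem loc_injective {n : ℕ} (β : Fin n → ℂ) : Function.Injective (loc (n := n) β) := by
  rw [injective_iff_map_eq_zero]
  intro u hu
  apply MvPolynomial.funext
  intro p
  have h1 : pol β (fun i => p (Fin.castAdd n i) - β i) (fun i => p (Fin.natAdd n i)) u = 0 := by
    ext m
    rw [← pol_coeff, hu]
    simp
  have h2 := pol_eval β (fun i => p (Fin.castAdd n i) - β i) (fun i => p (Fin.natAdd n i)) u 1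
  rw [h1, Polynomial.eval_zero] at h2
  have h3 : Fin.append (fun i => β i + 1 * (p (Fin.castAdd n i) - β i))
      (fun i => p (Fin.natAdd n i)) = p := by
    funext i
    refine Fin.addCases (fun i => ?_) (fun i => ?_) i
    · rw [Fin.append_left]
      ring
    · rw [Fin.append_right]
  rw [h3] at h2
  rw [← h2, map_zero]

theorem exists_scalar {n D : ℕ} (β y x : Fin n → ℂ) {u : MvPolynomial (Fin (n + n)) ℂ}
    (hu : u.totalDegree ≤ D) {m : ℕ}
    (h : eval (Fin.append y x) (PowerSeries.coeff m (loc β u)) ≠ 0) :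
    ∃ z : ℕ, z ≤ D ∧ eval (Fin.append (fun i => β i + z * y i) x) u ≠ 0 := by
  rw [pol_coeff] at h
  have h0 : pol β y x u ≠ 0 := by
    intro h0
    rw [h0, Polynomial.coeff_zero] at h
    exact h rfl
  have hd : (pol β y x u).natDegree ≤ D := by
    have := MvPolynomial.aeval_natDegree_le (n := 1) u hu
      (Fin.append (fun i => Polynomial.C (β i) + Polynomial.X * Polynomial.C (y i))
        (fun i => Polynomial.C (x i))) (fun i => by
        refine Fin.addCases (fun i => ?_) (fun i => ?_) i
        · rw [Fin.append_left]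
          compute_degree
        · rw [Fin.append_right, Polynomial.natDegree_C]
          exact Nat.zero_le 1)
    rw [mul_one] at this
    exact this
  obtain ⟨z, hz, hz'⟩ := exists_nat_ne _ h0 hd
  refine ⟨z, hz, ?_⟩
  rw [pol_eval] at hz'
  exact hz'

theorem exists_scalar_line {n q : ℕ} (α x : Fin n → ℂ) {f : MvPolynomial (Fin n) ℂ}
    (hf : f.totalDegree ≤ q) {m : ℕ} (h : (line α x f).coeff m ≠ 0) :
    ∃ z : ℕ, z ≤ q ∧ eval (fun i => α i + z * x i) f ≠ 0 := by
  have h0 : line α x f ≠ 0 := by
    intro h0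
    rw [h0, Polynomial.coeff_zero] at h
    exact h rfl
  have hd : (line α x f).natDegree ≤ q := by
    have := MvPolynomial.aeval_natDegree_le (n := 1) f hf
      (fun i => Polynomial.C (α i) + Polynomial.X * Polynomial.C (x i)) (fun i => by
        compute_degree)
    rw [mul_one] at this
    exact this
  obtain ⟨z, hz, hz'⟩ := exists_nat_ne _ h0 hd
  refine ⟨z, hz, ?_⟩
  have h2 : (line α x f).eval (z : ℂ) = eval (fun i => α i + z * x i) f := by
    have h : (Polynomial.evalRingHom (z : ℂ)).comp
        (line α x : MvPolynomial (Fin n) ℂ →+* Polynomial ℂ) =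
        eval (fun i => α i + z * x i) := by
      apply MvPolynomial.ringHom_ext
      · intro c
        simp [line]
      · intro i
        simp [line]
        ring
    exact congrArg (fun φ => φ f) h
  rw [h2] at hz'
  exact hz'

private noncomputable def mom {n : ℕ} (l : MvPolynomial (Fin n) ℂ) : Polynomial ℂ :=
  aeval (fun i : Fin n => (Polynomial.X : Polynomial ℂ) ^ ((i : ℕ) + 1)) l

private theorem supp_cases {n : ℕ} {l : MvPolynomial (Fin n) ℂ} (hl : l.totalDegree ≤ 1)
    {d : Fin n →₀ ℕ} (hd : d ∈ l.support) : d = 0 ∨ ∃ i, d = Finsupp.single i 1 := by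
  classical
  have h1 := le_totalDegree hd
  rw [Finsupp.sum_fintype _ _ (fun _ => rfl)] at h1
  by_cases h0 : ∀ i, d i = 0
  · exact Or.inl (Finsupp.ext h0)
  · push Not at h0
    obtain ⟨i, hi⟩ := h0
    refine Or.inr ⟨i, ?_⟩
    have h2 : d i + ∑ j ∈ Finset.univ.erase i, d j = ∑ j, d j :=
      Finset.add_sum_erase Finset.univ (fun j => d j) (Finset.mem_univ i)
    have h3 : ∑ j ∈ Finset.univ.erase i, d j = 0 := by omega
    have h4 : d i = 1 := by omega
    ext j
    by_cases hj : j = i
    · subst hj
      rw [Finsupp.single_eq_same, h4]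
    · rw [Finsupp.single_eq_of_ne hj]
      exact Finset.sum_eq_zero_iff.1 h3 j (Finset.mem_erase.2 ⟨hj, Finset.mem_univ j⟩)

private theorem mom_eq {n : ℕ} (l : MvPolynomial (Fin n) ℂ) :
    mom l = ∑ d ∈ l.support, Polynomial.C (coeff d l) *
      Polynomial.X ^ (∑ i : Fin n, ((i : ℕ) + 1) * d i) := by
  rw [mom, aeval_def, eval₂_eq']
  refine Finset.sum_congr rfl fun d _ => ?_
  congr 1
  rw [← Finset.prod_pow_eq_pow_sum]
  refine Finset.prod_congr rfl fun i _ => ?_
  rw [← pow_mul]

private theorem mom_ne {n : ℕ} {l : MvPolynomial (Fin n) ℂ} (hl : l.totalDegree ≤ 1)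
    (h0 : l ≠ 0) : mom l ≠ 0 := by
  classical
  obtain ⟨d0, hd0⟩ : ∃ d, d ∈ l.support := by
    by_contra hcon
    push Not at hcon
    exact h0 (support_eq_empty.1 (Finset.eq_empty_of_forall_notMem hcon))
  intro hm
  have h1 : (mom l).coeff (∑ i : Fin n, ((i : ℕ) + 1) * d0 i) = coeff d0 l := by
    rw [mom_eq, Polynomial.finsetSum_coeff, Finset.sum_eq_single d0]
    · rw [Polynomial.coeff_C_mul_X_pow, if_pos rfl]
    · intro d hd hne
      rw [Polynomial.coeff_C_mul_X_pow, if_neg]
      intro heq
      apply hne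
      have hs : ∀ i : Fin n, ∑ j : Fin n, ((j : ℕ) + 1) * (Finsupp.single i 1 : Fin n →₀ ℕ) j =
          (i : ℕ) + 1 := by
        intro i
        rw [Finset.sum_eq_single i]
        · rw [Finsupp.single_eq_same, mul_one]
        · intro j _ hj
          rw [Finsupp.single_eq_of_ne hj, mul_zero]
        · intro h
          exact absurd (Finset.mem_univ i) h
      have hz : ∑ j : Fin n, ((j : ℕ) + 1) * (0 : Fin n →₀ ℕ) j = 0 := by simp
      rcases supp_cases hl hd with rfl | ⟨i, rfl⟩
      · rcases supp_cases hl hd0 with rfl | ⟨i0, rfl⟩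
        · rfl
        · rw [hs, hz] at heq
          omega
      · rcases supp_cases hl hd0 with rfl | ⟨i0, rfl⟩
        · rw [hs, hz] at heq
          omega
        · rw [hs, hs] at heq
          have : i = i0 := Fin.ext (by omega)
          rw [this]
    · intro h
      exact absurd hd0 h
  rw [hm, Polynomial.coeff_zero] at h1
  exact (mem_support_iff.1 hd0) h1.symm

theorem exists_moment {n N : ℕ} {ι : Type*} [Fintype ι] (hN : Fintype.card ι ≤ N)
    (l : ι → MvPolynomial (Fin n) ℂ) (hl : ∀ j, (l j).totalDegree ≤ 1) (h0 : ∀ j, l j ≠ 0) :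
    ∃ w : ℕ, w ≤ N * n ∧ ∀ j, eval (fun i : Fin n => (w : ℂ) ^ ((i : ℕ) + 1)) (l j) ≠ 0 := by
  have hne : ∏ j, mom (l j) ≠ 0 := Finset.prod_ne_zero_iff.2 fun j _ => mom_ne (hl j) (h0 j)
  have hdeg : (∏ j, mom (l j)).natDegree ≤ N * n := by
    refine (Polynomial.natDegree_prod_le _ _).trans ?_
    have h1 : ∀ j ∈ (Finset.univ : Finset ι), (mom (l j)).natDegree ≤ n := by
      intro j _
      have := MvPolynomial.aeval_natDegree_le (n := n) (l j) (hl j)
        (fun i : Fin n => (Polynomial.X : Polynomial ℂ) ^ ((i : ℕ) + 1)) (fun i => by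
          rw [Polynomial.natDegree_X_pow]
          exact i.isLt)
      rw [one_mul] at this
      exact this
    refine (Finset.sum_le_card_nsmul _ _ _ h1).trans ?_
    rw [smul_eq_mul, Finset.card_univ]
    exact Nat.mul_le_mul_right _ hN
  obtain ⟨w, hw, hw'⟩ := exists_nat_ne _ hne hdeg
  refine ⟨w, hw, fun j => ?_⟩
  rw [Polynomial.eval_prod, Finset.prod_ne_zero_iff] at hw'
  have h2 := hw' j (Finset.mem_univ j)
  have h3 : (mom (l j)).eval (w : ℂ) = eval (fun i : Fin n => (w : ℂ) ^ ((i : ℕ) + 1)) (l j) := by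
    have h : (Polynomial.evalRingHom (w : ℂ)).comp
        ((aeval (fun i : Fin n => (Polynomial.X : Polynomial ℂ) ^ ((i : ℕ) + 1)) :
          MvPolynomial (Fin n) ℂ →ₐ[ℂ] Polynomial ℂ) : MvPolynomial (Fin n) ℂ →+* Polynomial ℂ) =
        eval (fun i : Fin n => (w : ℂ) ^ ((i : ℕ) + 1)) := by
      apply MvPolynomial.ringHom_ext
      · intro c
        simp
      · intro i
        simp
    exact congrArg (fun φ => φ (l j)) h
  rw [h3] at h2
  exact h2

end Pool.Agent.Helper5.BD
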