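import Mathlib
import Pool.Agent.Helper5.BD.Defs

/-!
# BD-10: factorisation of the entries

For `l` of degree `≤ 1`: `l = C (eval 0 l) + ∑ i, C (coeff (single i 1) l) * X i`, so
`G n l = C (H n 0 l) + X * C (linX l)` and `loc β (H n 0 l) = C (C (eval β l)) + X * C (linY l)`.
* `loc_mul_linv`: coefficients: `eval β l * (eval β l)⁻¹ = 1` and, in degree `m + 1`,
  `eval β l * a (m+1) * linY ^ (m+1) + a m * linY ^ (m+1) = 0` with `a m = (-1)^m * (eval β l)⁻¹ ^ (m+1)`.
* `loc_H_term`: map `G n (P * ∏ j, l j) = G n P * ∏ j, (C (H n 0 (l j)) + X * C (linX (l j)))` by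
  `Polynomial.mapRingHom (loc β)`; `C (L j) + X * C (C (linX (l j))) = C (L j) * (1 + X * C (lam β (l j)))`,
  `L j = loc β (H n 0 (l j))`, as `L j * linv β (l j) = 1`; take the coefficient of `w ^ b`
  (`Polynomial.coeff_mul`, `Polynomial.coeff_C_mul`).
* `det_term`: pull the factors `∏ j, loc β (H n 0 (l i j))` out of the columns (`Matrix.det_mul_row` /
  `Matrix.det_mul_column`), `map_det`.
-/

namespace Pool.Agent.Helper5.BD

open MvPolynomial

private theorem lin_repr {n : ℕ} {l : MvPolynomial (Fin n) ℂ} (hl : l.totalDegree ≤ 1) :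
    l = C (coeff 0 l) + ∑ i, C (coeff (Finsupp.single i 1) l) * X i := by
  classical
  ext m
  rw [coeff_add, coeff_C, coeff_sum]
  simp only [coeff_C_mul, coeff_X]
  by_cases h0 : m = 0
  · subst h0
    have h1 : ∀ i : Fin n, (Finsupp.single i 1 : Fin n →₀ ℕ) ≠ 0 := by
      intro i h
      have := DFunLike.congr_fun h i
      simp at this
    simp [h1]
  · by_cases h1 : ∃ k, m = Finsupp.single k 1
    · obtain ⟨k, rfl⟩ := h1
      have h2 : (0 : Fin n →₀ ℕ) ≠ Finsupp.single k 1 := fun h => h0 h.symm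
      rw [if_neg h2, Finset.sum_eq_single k]
      · simp
      · intro i _ hi
        have h3 : (Finsupp.single i 1 : Fin n →₀ ℕ) ≠ Finsupp.single k 1 := by
          intro h
          have h4 := DFunLike.congr_fun h k
          simp [hi] at h4
        rw [if_neg h3, mul_zero]
      · intro h
        exact absurd (Finset.mem_univ k) h
    · have h2 : (0 : Fin n →₀ ℕ) ≠ m := fun h => h0 h.symm
      have h3 : coeff m l = 0 := by
        by_contra hne
        have hm : m ∈ l.support := mem_support_iff.mpr hne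
        have h4 := (le_totalDegree hm).trans hl
        rcases Nat.lt_or_ge (m.sum fun _ e => e) 1 with h5 | h5
        · have h6 : (m.sum fun _ e => e) = 0 := by omega
          apply h0
          ext i
          rw [Finsupp.sum, Finset.sum_eq_zero_iff] at h6
          by_contra h7
          exact h7 (h6 i (Finsupp.mem_support_iff.mpr h7))
        · have h6 : (m.sum fun _ e => e) = 1 := le_antisymm h4 h5
          exact h1 ((Finsupp.sum_eq_one_iff m).mp h6)
      rw [if_neg h2, h3, zero_add]
      symm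
      apply Finset.sum_eq_zero
      intro i _
      have h4 : (Finsupp.single i 1 : Fin n →₀ ℕ) ≠ m := fun h => h1 ⟨i, h.symm⟩
      rw [if_neg h4, mul_zero]

private theorem G_C {n : ℕ} (c : ℂ) : G n (C c) = Polynomial.C (C c) := by
  rw [G, aeval_C]
  rfl

private theorem G_X {n : ℕ} (i : Fin n) :
    G n (X i) = Polynomial.C (yv i) + Polynomial.X * Polynomial.C (xv i) := by
  rw [G, aeval_X]

private theorem G_lin {n : ℕ} {l : MvPolynomial (Fin n) ℂ} (hl : l.totalDegree ≤ 1) :
    G n l = Polynomial.C (C (coeff 0 l) + linY l) + Polynomial.X * Polynomial.C (linX l) := by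
  conv_lhs => rw [lin_repr hl]
  rw [map_add, map_sum, G_C]
  have h : ∀ i : Fin n, G n (C (coeff (Finsupp.single i 1) l) * X i)
      = Polynomial.C (C (coeff (Finsupp.single i 1) l) * yv i)
        + Polynomial.X * Polynomial.C (C (coeff (Finsupp.single i 1) l) * xv i) := by
    intro i
    rw [map_mul, G_C, G_X, Polynomial.C_mul, Polynomial.C_mul]
    ring
  rw [Finset.sum_congr rfl fun i _ => h i, Finset.sum_add_distrib, ← Finset.mul_sum, linY, linX,
    ← map_sum, ← map_sum, Polynomial.C_add]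
  ring

private theorem H_zero_lin {n : ℕ} {l : MvPolynomial (Fin n) ℂ} (hl : l.totalDegree ≤ 1) :
    H n 0 l = C (coeff 0 l) + linY l := by
  rw [H, G_lin hl]
  simp

private theorem loc_C {n : ℕ} (β : Fin n → ℂ) (c : ℂ) : loc β (C c) = PowerSeries.C (C c) := by
  rw [loc, aeval_C, PowerSeries.algebraMap_apply]
  rfl

private theorem loc_yv {n : ℕ} (β : Fin n → ℂ) (i : Fin n) :
    loc β (yv i) = PowerSeries.C (C (β i)) + PowerSeries.X * PowerSeries.C (yv i) := by
  rw [loc]
  conv_lhs => rw [yv]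
  rw [aeval_X, Fin.append_left]

private theorem loc_xv {n : ℕ} (β : Fin n → ℂ) (i : Fin n) :
    loc β (xv i) = PowerSeries.C (xv i) := by
  rw [loc]
  conv_lhs => rw [xv]
  rw [aeval_X, Fin.append_right]

private theorem loc_linX {n : ℕ} (β : Fin n → ℂ) (l : MvPolynomial (Fin n) ℂ) :
    loc β (linX l) = PowerSeries.C (linX l) := by
  rw [linX, map_sum, map_sum]
  refine Finset.sum_congr rfl fun i _ => ?_
  rw [map_mul, map_mul, loc_C, loc_xv]

private theorem eval_lin {n : ℕ} (β : Fin n → ℂ) {l : MvPolynomial (Fin n) ℂ} (hl : l.totalDegree ≤ 1) :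
    eval β l = coeff 0 l + ∑ i, coeff (Finsupp.single i 1) l * β i := by
  conv_lhs => rw [lin_repr hl]
  simp

private theorem loc_H_zero_lin {n : ℕ} (β : Fin n → ℂ) {l : MvPolynomial (Fin n) ℂ}
    (hl : l.totalDegree ≤ 1) :
    loc β (H n 0 l) = PowerSeries.C (C (eval β l)) + PowerSeries.X * PowerSeries.C (linY l) := by
  rw [H_zero_lin hl, map_add, loc_C, eval_lin β hl]
  have h1 : loc β (linY l) = PowerSeries.C (C (∑ i, coeff (Finsupp.single i 1) l * β i))
      + PowerSeries.X * PowerSeries.C (linY l) := by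
    conv_lhs => rw [linY, map_sum]
    have h : ∀ i : Fin n, loc β (C (coeff (Finsupp.single i 1) l) * yv i)
        = PowerSeries.C (C (coeff (Finsupp.single i 1) l * β i))
          + PowerSeries.X * PowerSeries.C (C (coeff (Finsupp.single i 1) l) * yv i) := by
      intro i
      rw [map_mul, loc_C, loc_yv, map_mul (C : ℂ →+* _), map_mul (PowerSeries.C), map_mul
        (PowerSeries.C)]
      ring
    rw [Finset.sum_congr rfl fun i _ => h i, Finset.sum_add_distrib, ← Finset.mul_sum,
      ← map_sum, ← map_sum, ← map_sum]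
    rw [linY]
  rw [h1, map_add (C : ℂ →+* _), map_add (PowerSeries.C)]
  ring

theorem loc_mul_linv {n : ℕ} (β : Fin n → ℂ) {l : MvPolynomial (Fin n) ℂ} (hl : l.totalDegree ≤ 1)
    (hβ : eval β l ≠ 0) : loc β (H n 0 l) * linv β l = 1 := by
  rw [loc_H_zero_lin β hl, linv]
  have he : (C (eval β l) : MvPolynomial (Fin (n + n)) ℂ) * C ((eval β l)⁻¹) = 1 := by
    rw [← map_mul, mul_inv_cancel₀ hβ, map_one]
  ext1 m
  rw [add_mul, mul_assoc, map_add]
  cases m with
  | zero =>
    rw [PowerSeries.coeff_C_mul, PowerSeries.coeff_mk, PowerSeries.coeff_zero_X_mul,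
      PowerSeries.coeff_zero_one]
    simp only [pow_zero, zero_add, pow_one, one_mul, mul_one, add_zero]
    exact he
  | succ m =>
    rw [PowerSeries.coeff_C_mul, PowerSeries.coeff_mk, PowerSeries.coeff_succ_X_mul,
      PowerSeries.coeff_C_mul, PowerSeries.coeff_mk, PowerSeries.coeff_one,
      if_neg (Nat.succ_ne_zero m)]
    simp only [map_mul, map_pow, map_neg, map_one]
    have h2 : (C (eval β l) : MvPolynomial (Fin (n + n)) ℂ) * C ((eval β l)⁻¹) ^ (m + 1 + 1)
        = C ((eval β l)⁻¹) ^ (m + 1) := by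
      rw [pow_succ' _ (m + 1), ← mul_assoc, he, one_mul]
    linear_combination ((-1 : MvPolynomial (Fin (n + n)) ℂ) ^ (m + 1) * linY l ^ (m + 1)) * h2

private theorem loc_H {n : ℕ} (β : Fin n → ℂ) (b : ℕ) (u : MvPolynomial (Fin n) ℂ) :
    loc β (H n b u) = ((G n u).map (loc β : MvPolynomial (Fin (n + n)) ℂ →+* _)).coeff b := by
  rw [Polynomial.coeff_map, H]
  rfl

theorem loc_H_term {n s : ℕ} (β : Fin n → ℂ) (P : MvPolynomial (Fin n) ℂ)
    (l : Fin s → MvPolynomial (Fin n) ℂ) (hl : ∀ j, (l j).totalDegree ≤ 1)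
    (hβ : ∀ j, eval β (l j) ≠ 0) (b : ℕ) :
    loc β (H n b (P * ∏ j, l j)) = (∏ j, loc β (H n 0 (l j))) * ent β P l b := by
  rw [loc_H, map_mul, map_prod, Polynomial.map_mul, Polynomial.map_prod]
  have h1 : ∀ j, (G n (l j)).map (loc β : MvPolynomial (Fin (n + n)) ℂ →+* _)
      = Polynomial.C (loc β (H n 0 (l j))) * (1 + Polynomial.X * Polynomial.C (lam β (l j))) := by
    intro j
    rw [G_lin (hl j), Polynomial.map_add, Polynomial.map_mul, Polynomial.map_C, Polynomial.map_C,
      Polynomial.map_X, ← H_zero_lin (hl j)]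
    have h2 : loc β (H n 0 (l j)) * lam β (l j) = PowerSeries.C (linX (l j)) := by
      rw [lam, ← mul_assoc, mul_comm _ (PowerSeries.C (linX (l j))), mul_assoc,
        loc_mul_linv β (hl j) (hβ j), mul_one]
    have h3 : (loc β : MvPolynomial (Fin (n + n)) ℂ →+* PowerSeries (MvPolynomial (Fin (n + n)) ℂ))
        (linX (l j)) = loc β (H n 0 (l j)) * lam β (l j) := by
      rw [h2]
      exact loc_linX β (l j)
    rw [h3, Polynomial.C_mul]
    have h4 : (loc β : MvPolynomial (Fin (n + n)) ℂ →+* PowerSeries (MvPolynomial (Fin (n + n)) ℂ))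
        (H n 0 (l j)) = loc β (H n 0 (l j)) := rfl
    rw [h4]
    ring
  rw [Finset.prod_congr rfl fun j _ => h1 j, Finset.prod_mul_distrib, ← map_prod,
    mul_left_comm, Polynomial.coeff_C_mul, Polynomial.coeff_mul]
  have h5 : (∑ c ∈ Finset.HasAntidiagonal.antidiagonal b,
      ((G n P).map (loc β : MvPolynomial (Fin (n + n)) ℂ →+* _)).coeff c.1 *
        (∏ j, (1 + Polynomial.X * Polynomial.C (lam β (l j)))).coeff c.2) = ent β P l b := by
    rw [ent]
    refine Finset.sum_congr rfl fun c _ => ?_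
    rw [loc_H, esy]
  exact congrArg _ h5

private theorem aux_mul {R : Type*} [CommRing R] (s A B D : R) (h : A * B = 1) :
    s * (A * D) * B = s * D := by
  linear_combination (s * D) * h

theorem loc_minor {n s r : ℕ} (β : Fin n → ℂ) (P : Fin r → MvPolynomial (Fin n) ℂ)
    (l : Fin r → Fin s → MvPolynomial (Fin n) ℂ) (hl : ∀ i j, (l i j).totalDegree ≤ 1)
    (hβ : ∀ i j, eval β (l i j) ≠ 0) (a : Fin (r + 1)) :
    loc β (minor (fun i => P i * ∏ j, l i j) a) * ∏ i, ∏ j, linv β (l i j) =
      (-1) ^ ((a : ℕ) + r) * Matrix.det (Matrix.of fun b i : Fin r => ent β (P i) (l i) (a.succAbove b)) := by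
  rw [minor, map_mul, map_pow, map_neg, map_one, AlgHom.map_det]
  have h1 : (loc β).mapMatrix (Matrix.of fun b i : Fin r =>
        H n (a.succAbove b : Fin (r + 1)) (P i * ∏ j, l i j))
      = Matrix.of fun b i : Fin r => (∏ j, loc β (H n 0 (l i j))) *
          (Matrix.of fun b i : Fin r => ent β (P i) (l i) (a.succAbove b : Fin (r + 1))) b i := by
    ext1 b i
    simp only [AlgHom.mapMatrix_apply, Matrix.map_apply, Matrix.of_apply]
    exact loc_H_term β (P i) (l i) (hl i) (hβ i) _
  rw [h1, Matrix.det_mul_row]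
  have h2 : (∏ i, ∏ j, loc β (H n 0 (l i j))) * ∏ i, ∏ j, linv β (l i j) = 1 := by
    rw [← Finset.prod_mul_distrib]
    refine Finset.prod_eq_one fun i _ => ?_
    rw [← Finset.prod_mul_distrib]
    exact Finset.prod_eq_one fun j _ => loc_mul_linv β (hl i j) (hβ i j)
  exact aux_mul _ _ _ _ h2

end Pool.Agent.Helper5.BD
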