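import Mathlib
import Pool.Agent.Helper5.BD.Defs

/-!
# BD-05b: normalisation, nonvanishing of a limit, pigeonhole for ultrafilters

* `exists_normalize`: divide by the coefficient of largest absolute value (over all `a` and the supports).
* `exists_ne_zero`: for every `t` some coefficient (`a`, `m` with `m` in a finite set) has norm `1`; by the
  ultrafilter property one pair `(a, m)` works for `F`-many `t`, so `‖coeff m (v a)‖ = 1`. (The `m` of
  degree `≤ D` form a finite set: `m ≤ fun _ => D`, `Set.finite_Iic`.)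
* `exists_const`: an ultrafilter contains one of finitely many sets covering everything
  (`Ultrafilter.finite_biUnion_mem_iff` or `Ultrafilter.eventually_exists…`).
-/

namespace Pool.Agent.Helper5.BD

open MvPolynomial Filter Topology

theorem exists_normalize {n : ℕ} {ι : Type*} [Fintype ι] (u : ι → MvPolynomial (Fin n) ℂ)
    (h : ∃ a, u a ≠ 0) : ∃ c : ℂ, c ≠ 0 ∧ (∀ a m, ‖coeff m (c • u a)‖ ≤ 1) ∧
      ∃ a m, ‖coeff m (c • u a)‖ = 1 := by
  classical
  obtain ⟨a₀, ha₀⟩ := h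
  obtain ⟨m₀, hm₀⟩ := MvPolynomial.ne_zero_iff.1 ha₀
  have hne : (Finset.univ.sigma fun a => (u a).support).Nonempty :=
    ⟨⟨a₀, m₀⟩, Finset.mem_sigma.2 ⟨Finset.mem_univ _, mem_support_iff.2 hm₀⟩⟩
  obtain ⟨p, hp, hmax⟩ := Finset.exists_max_image _
    (fun p : (_ : ι) × (Fin n →₀ ℕ) => ‖coeff p.2 (u p.1)‖) hne
  have hp1 : coeff p.2 (u p.1) ≠ 0 := mem_support_iff.1 (Finset.mem_sigma.1 hp).2
  have hM : 0 < ‖coeff p.2 (u p.1)‖ := norm_pos_iff.2 hp1
  have hc : ∀ a m, ‖coeff m (((‖coeff p.2 (u p.1)‖ : ℂ)⁻¹) • u a)‖ =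
      ‖coeff m (u a)‖ / ‖coeff p.2 (u p.1)‖ := by
    intro a m
    rw [coeff_smul, smul_eq_mul, norm_mul, norm_inv, Complex.norm_real, norm_norm]
    field_simp
  refine ⟨(‖coeff p.2 (u p.1)‖ : ℂ)⁻¹, ?_, ?_, p.1, p.2, ?_⟩
  · exact inv_ne_zero (Complex.ofReal_ne_zero.2 hM.ne')
  · intro a m
    rw [hc, div_le_one hM]
    by_cases h0 : coeff m (u a) = 0
    · rw [h0, norm_zero]
      exact hM.le
    · exact hmax ⟨a, m⟩ (Finset.mem_sigma.2 ⟨Finset.mem_univ _, mem_support_iff.2 h0⟩)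
  · rw [hc, div_self hM.ne']

theorem exists_ne_zero {n D : ℕ} {ι : Type*} [Fintype ι] (F : Ultrafilter ℕ)
    (u : ℕ → ι → MvPolynomial (Fin n) ℂ) (v : ι → MvPolynomial (Fin n) ℂ)
    (hD : ∀ᶠ t in (F : Filter ℕ), ∀ a, (u t a).totalDegree ≤ D)
    (h1 : ∀ᶠ t in (F : Filter ℕ), ∃ a m, ‖coeff m (u t a)‖ = 1)
    (h : ∀ a, PTendsto F (fun t => u t a) (v a)) : ∃ a, v a ≠ 0 := by
  let S : Set (Fin n →₀ ℕ) := Set.Iic (Finsupp.equivFunOnFinite.symm fun _ => D)
  have hS : Finite S := (Set.finite_Iic _).to_subtype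
  have h2 : ∀ᶠ t in (F : Filter ℕ), ∃ p : ι × S, ‖coeff p.2.1 (u t p.1)‖ = 1 := by
    filter_upwards [hD, h1] with t ht1 ht2
    obtain ⟨a, m, ham⟩ := ht2
    have hm : m ∈ (u t a).support := by
      rw [mem_support_iff]
      intro h0
      rw [h0, norm_zero] at ham
      exact zero_ne_one ham
    have hmS : m ∈ S := by
      intro i
      have h3 := (le_totalDegree hm).trans (ht1 a)
      rw [Finsupp.sum_fintype _ _ (fun _ => rfl)] at h3
      exact (Finset.single_le_sum (f := fun i => m i) (fun _ _ => Nat.zero_le _)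
        (Finset.mem_univ i)).trans h3
    exact ⟨(a, ⟨m, hmS⟩), ham⟩
  obtain ⟨p, hp⟩ := Ultrafilter.eventually_exists_iff.1 h2
  refine ⟨p.1, fun h0 => ?_⟩
  have h3 := (h p.1 p.2.1).norm
  have h4 : Tendsto (fun t => ‖coeff p.2.1 (u t p.1)‖) F (𝓝 1) :=
    tendsto_const_nhds.congr' (hp.mono fun t ht => ht.symm)
  have h5 := tendsto_nhds_unique h3 h4
  rw [h0, coeff_zero, norm_zero] at h5
  exact zero_ne_one h5

theorem exists_const {ι : Type*} [Finite ι] (F : Ultrafilter ℕ) (P : ℕ → ι → Prop)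
    (h : ∀ᶠ t in (F : Filter ℕ), ∃ i, P t i) : ∃ i, ∀ᶠ t in (F : Filter ℕ), P t i :=
  Ultrafilter.eventually_exists_iff.1 h

end Pool.Agent.Helper5.BD
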