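import Mathlib
import Pool.Agent.Helper5.BD.Defs

/-!
# BD-12c: normalisation of a term

Divide each `l j` by its coefficient of largest absolute value, multiply `P` by the product of these
coefficients (`P` and `C c * P` have the same rank bound: put `c` into `A`; `T ≠ 0` makes all `l j ≠ 0`).
-/

namespace Pool.Agent.Helper5.BD

open MvPolynomial

theorem normTerm {n s p ρ : ℕ} {T : MvPolynomial (Fin n) ℂ} (h : IsTerm s p ρ T) (h0 : T ≠ 0) :
    ∃ (P : MvPolynomial (Fin n) ℂ) (l : Fin s → MvPolynomial (Fin n) ℂ),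
      P.totalDegree ≤ p ∧ Helper7.PD.RankLe ρ P ∧ (∀ j, (l j).totalDegree ≤ 1) ∧
      (∀ j m, ‖coeff m (l j)‖ ≤ 1) ∧ (∀ j, ∃ m, ‖coeff m (l j)‖ = 1) ∧ T = P * ∏ j, l j := by
  obtain ⟨P, l, hP, hr, hl, hT⟩ := h
  have hlne : ∀ j, l j ≠ 0 := by
    intro j hj
    apply h0
    rw [hT, Finset.prod_eq_zero (Finset.mem_univ j) hj, mul_zero]
  have hmax : ∀ j, ∃ m ∈ (l j).support, ∀ m' ∈ (l j).support,
      ‖coeff m' (l j)‖ ≤ ‖coeff m (l j)‖ := fun j =>
    Finset.exists_max_image (l j).support (fun m => ‖coeff m (l j)‖)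
      (Finset.nonempty_iff_ne_empty.2 fun he => hlne j (support_eq_empty.1 he))
  choose m hm hmm using hmax
  have hc0 : ∀ j, coeff (m j) (l j) ≠ 0 := fun j => mem_support_iff.1 (hm j)
  have hpos : ∀ j, 0 < ‖coeff (m j) (l j)‖ := fun j => norm_pos_iff.2 (hc0 j)
  have hle : ∀ j m', ‖coeff m' (l j)‖ ≤ ‖coeff (m j) (l j)‖ := by
    intro j m'
    by_cases h' : m' ∈ (l j).support
    · exact hmm j m' h'
    · rw [notMem_support_iff.1 h', norm_zero]
      exact norm_nonneg _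
  refine ⟨C (∏ j, coeff (m j) (l j)) * P, fun j => C (coeff (m j) (l j))⁻¹ * l j, ?_, ?_, ?_, ?_,
    ?_, ?_⟩
  · refine (totalDegree_mul _ _).trans ?_
    rw [totalDegree_C, zero_add]
    exact hP
  · obtain ⟨A, B, hAB⟩ := hr
    refine ⟨fun k => C (∏ j, coeff (m j) (l j)) * A k, B, fun x y => ?_⟩
    rw [map_mul, eval_C, hAB x y, Finset.mul_sum]
    refine Finset.sum_congr rfl fun k _ => ?_
    rw [map_mul, eval_C, mul_assoc]
  · intro j
    refine (totalDegree_mul _ _).trans ?_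
    rw [totalDegree_C, zero_add]
    exact hl j
  · intro j m'
    rw [coeff_C_mul, norm_mul, norm_inv, inv_mul_le_iff₀ (hpos j), mul_one]
    exact hle j m'
  · intro j
    refine ⟨m j, ?_⟩
    rw [coeff_C_mul, inv_mul_cancel₀ (hc0 j), norm_one]
  · have hprod : (∏ j, (C (coeff (m j) (l j))⁻¹ * l j) : MvPolynomial (Fin n) ℂ) =
        C (∏ j, (coeff (m j) (l j))⁻¹) * ∏ j, l j := by
      rw [Finset.prod_mul_distrib, map_prod]
    rw [hprod, hT]
    have h1 : (∏ j, coeff (m j) (l j)) * ∏ j, (coeff (m j) (l j))⁻¹ = 1 := by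
      rw [← Finset.prod_mul_distrib]
      exact Finset.prod_eq_one fun j _ => mul_inv_cancel₀ (hc0 j)
    calc P * ∏ j, l j = C 1 * (P * ∏ j, l j) := by rw [C_1, one_mul]
      _ = C ((∏ j, coeff (m j) (l j)) * ∏ j, (coeff (m j) (l j))⁻¹) * (P * ∏ j, l j) := by rw [h1]
      _ = _ := by rw [C_mul]; ring

end Pool.Agent.Helper5.BD
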