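import Mathlib
import Pool.Agent.Helper5.BD.Limit

/-!
# BD-11: limits of power series

* `STendsto.mul`: `PowerSeries.coeff_mul`, finite sums of products; `STendsto.prod` by induction.
* `STendsto.loc`: `u ↦ eval v (PowerSeries.coeff m (loc β u))` is a linear functional; `tendsto_linear`.
* `STendsto.linv`: `eval v (coeff m (linv β (u t))) = (-1)^m (eval β (u t))⁻¹^(m+1) (eval v (linY (u t)))^m`;
  `eval β (u t) → eval β w ≠ 0` and `eval v (linY (u t)) → eval v (linY w)` (linear functionals).
-/

namespace Pool.Agent.Helper5.BD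

open MvPolynomial Filter Topology

theorem STendsto.mul {n : ℕ} {F : Ultrafilter ℕ} {U U' : ℕ → PowerSeries (MvPolynomial (Fin n) ℂ)}
    {V V' : PowerSeries (MvPolynomial (Fin n) ℂ)} (h : STendsto F U V) (h' : STendsto F U' V') :
    STendsto F (fun t => U t * U' t) (V * V') := by
  intro v m
  simp only [PowerSeries.coeff_mul, map_sum, map_mul]
  exact tendsto_finsetSum _ fun p _ => (h v p.1).mul (h' v p.2)

theorem STendsto.prod {n : ℕ} {ι : Type*} {F : Ultrafilter ℕ} (s : Finset ι)
    {U : ℕ → ι → PowerSeries (MvPolynomial (Fin n) ℂ)}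
    {V : ι → PowerSeries (MvPolynomial (Fin n) ℂ)} (h : ∀ i ∈ s, STendsto F (fun t => U t i) (V i)) :
    STendsto F (fun t => ∏ i ∈ s, U t i) (∏ i ∈ s, V i) := by
  classical
  induction s using Finset.induction_on with
  | empty =>
    intro v m
    simp only [Finset.prod_empty]
    exact tendsto_const_nhds
  | insert i s hi ih =>
    simp only [Finset.prod_insert hi]
    exact (h i (Finset.mem_insert_self i s)).mul
      (ih fun j hj => h j (Finset.mem_insert_of_mem hj))

theorem STendsto.loc {n D : ℕ} {F : Ultrafilter ℕ} (β : Fin n → ℂ)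
    {u : ℕ → MvPolynomial (Fin (n + n)) ℂ} {v : MvPolynomial (Fin (n + n)) ℂ}
    (hD : ∀ᶠ t in (F : Filter ℕ), (u t).totalDegree ≤ D) (hv : v.totalDegree ≤ D)
    (h : PTendsto F u v) : STendsto F (fun t => BD.loc β (u t)) (BD.loc β v) := by
  intro x m
  let Λ : MvPolynomial (Fin (n + n)) ℂ →ₗ[ℂ] ℂ :=
    { toFun := fun p => eval x (PowerSeries.coeff m (BD.loc β p))
      map_add' := fun p q => by simp only [map_add]
      map_smul' := fun c p => by
        have h1 : BD.loc β (c • p) =
            PowerSeries.C (C c : MvPolynomial (Fin (n + n)) ℂ) * BD.loc β p := by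
          rw [map_smul]
          ext1 k
          rw [PowerSeries.coeff_C_mul, ← MvPolynomial.smul_eq_C_mul]
          rfl
        rw [h1, PowerSeries.coeff_C_mul, map_mul, eval_C, RingHom.id_apply, smul_eq_mul] }
  exact tendsto_linear F hD hv h Λ

theorem STendsto.linv {n : ℕ} {F : Ultrafilter ℕ} (β : Fin n → ℂ)
    {u : ℕ → MvPolynomial (Fin n) ℂ} {w : MvPolynomial (Fin n) ℂ}
    (hD : ∀ᶠ t in (F : Filter ℕ), (u t).totalDegree ≤ 1) (hw : w.totalDegree ≤ 1)
    (h : PTendsto F u w) (hβ : eval β w ≠ 0) :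
    STendsto F (fun t => BD.linv β (u t)) (BD.linv β w) := by
  intro x m
  have key : ∀ l : MvPolynomial (Fin n) ℂ, eval x (PowerSeries.coeff m (BD.linv β l)) =
      (-1) ^ m * (eval β l)⁻¹ ^ (m + 1) * (eval x (linY l)) ^ m := by
    intro l
    rw [BD.linv, PowerSeries.coeff_mk, map_mul, eval_C, map_pow]
  simp only [key]
  have h1 : Tendsto (fun t => eval β (u t)) F (𝓝 (eval β w)) := by
    have := tendsto_linear F hD hw h (MvPolynomial.aeval (R := ℂ) β).toLinearMap
    simpa [MvPolynomial.coe_aeval_eq_eval] using this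
  have h2 : ∀ l : MvPolynomial (Fin n) ℂ, eval x (linY l) =
      ∑ i, coeff (Finsupp.single i 1) l * eval x (yv i) := by
    intro l
    rw [linY, map_sum]
    refine Finset.sum_congr rfl fun i _ => ?_
    rw [map_mul, eval_C]
  have h3 : Tendsto (fun t => eval x (linY (u t))) F (𝓝 (eval x (linY w))) := by
    simp only [h2]
    exact tendsto_finsetSum _ fun i _ => (h (Finsupp.single i 1)).mul tendsto_const_nhds
  exact ((tendsto_const_nhds.mul ((h1.inv₀ hβ).pow (m + 1))).mul (h3.pow m))

end Pool.Agent.Helper5.BD
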