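import Mathlib
import Pool.Agent.Helper5.BD.Defs

/-!
# BD-06: calculus of coefficient ranks of power series

`coeff m (U * V) = ∑ over the antidiagonal (m + 1 ≤ D + 1 terms) of products`
(`PowerSeries.coeff_mul`); `RankLe.sum`, `RankLe.mul`, `RankLe.mono` of `Helper7.PD.Closure`; `0` has rank
`≤ 0`, a constant has rank `≤ 1`, and multiplication by a constant does not change the rank.
* `CR.det`: `Matrix.det_apply'`; for `r = 0` everything is `1`. Every product
  `∏ i, E (σ i) i` has `CR D ((D + 1) ^ r * ∏ b, Q b)` by `CR.prod` and `Equiv.prod_comp`; the sign is a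
  constant; there are `r !` permutations.
-/

namespace Pool.Agent.Helper5.BD

open MvPolynomial

theorem RankLe.zero {n R : ℕ} : Helper7.PD.RankLe R (0 : MvPolynomial (Fin n) ℂ) :=
  ⟨fun _ => 0, fun _ => 0, fun x y => by simp⟩

theorem RankLe.const {n R : ℕ} (hR : 1 ≤ R) (c : ℂ) :
    Helper7.PD.RankLe R (C c : MvPolynomial (Fin n) ℂ) := by
  have h : Helper7.PD.RankLe 1 (C c : MvPolynomial (Fin n) ℂ) :=
    ⟨fun _ => C c, fun _ => 1, fun x y => by simp⟩
  exact h.mono hR

theorem RankLe.C_mul {n R : ℕ} (c : ℂ) {f : MvPolynomial (Fin n) ℂ} (h : Helper7.PD.RankLe R f) :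
    Helper7.PD.RankLe R (C c * f) := by
  obtain ⟨A, B, hAB⟩ := h
  refine ⟨fun k => C c * A k, B, fun x y => ?_⟩
  rw [map_mul, hAB, Finset.mul_sum]
  refine Finset.sum_congr rfl fun k _ => ?_
  rw [map_mul, eval_C, eval_C]
  ring

theorem RankLe.add {n R R' : ℕ} {f g : MvPolynomial (Fin n) ℂ} (hf : Helper7.PD.RankLe R f)
    (hg : Helper7.PD.RankLe R' g) : Helper7.PD.RankLe (R + R') (f + g) := by
  have h := Helper7.PD.RankLe.sum ![f, g] ![R, R'] (by
    intro i
    fin_cases i
    · exact hf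
    · exact hg)
  simpa using h

theorem CR.mono {n D R R' : ℕ} {U : PowerSeries (MvPolynomial (Fin n) ℂ)} (h : CR D R U)
    (hR : R ≤ R') : CR D R' U :=
  fun m hm => (h m hm).mono hR

theorem CR.one {n D R : ℕ} (hR : 1 ≤ R) :
    CR D R (1 : PowerSeries (MvPolynomial (Fin n) ℂ)) := by
  intro m _
  rw [PowerSeries.coeff_one]
  split_ifs
  · exact RankLe.const hR 1
  · exact RankLe.zero

theorem CR.smul {n D R : ℕ} (c : ℂ) {U : PowerSeries (MvPolynomial (Fin n) ℂ)} (h : CR D R U) :
    CR D R (c • U) := by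
  intro m hm
  have h1 : PowerSeries.coeff m (c • U) = C c * PowerSeries.coeff m U := by
    rw [← MvPolynomial.smul_eq_C_mul]
    rfl
  rw [h1]
  exact RankLe.C_mul c (h m hm)

theorem CR.neg {n D R : ℕ} {U : PowerSeries (MvPolynomial (Fin n) ℂ)} (h : CR D R U) :
    CR D R (-U) := by
  intro m hm
  have h1 : PowerSeries.coeff m (-U) = C (-1) * PowerSeries.coeff m U := by
    rw [map_neg, map_neg, map_one, neg_one_mul]
  rw [h1]
  exact RankLe.C_mul _ (h m hm)

theorem CR.add {n D R R' : ℕ} {U V : PowerSeries (MvPolynomial (Fin n) ℂ)} (hU : CR D R U)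
    (hV : CR D R' V) : CR D (R + R') (U + V) := by
  intro m hm
  rw [map_add]
  exact RankLe.add (hU m hm) (hV m hm)

private theorem RankLe.fsum {n : ℕ} {ι : Type*} (s : Finset ι) (r : ι → ℕ)
    (f : ι → MvPolynomial (Fin n) ℂ) (h : ∀ i ∈ s, Helper7.PD.RankLe (r i) (f i)) :
    Helper7.PD.RankLe (∑ i ∈ s, r i) (∑ i ∈ s, f i) := by
  classical
  induction s using Finset.induction_on with
  | empty =>
    rw [Finset.sum_empty, Finset.sum_empty]
    exact RankLe.zero
  | insert a s ha ih =>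
    rw [Finset.sum_insert ha, Finset.sum_insert ha]
    exact RankLe.add (h a (Finset.mem_insert_self a s))
      (ih fun i hi => h i (Finset.mem_insert_of_mem hi))

theorem CR.mul {n D R R' : ℕ} {U V : PowerSeries (MvPolynomial (Fin n) ℂ)} (hU : CR D R U)
    (hV : CR D R' V) : CR D ((D + 1) * (R * R')) (U * V) := by
  intro m hm
  rw [PowerSeries.coeff_mul]
  have h := RankLe.fsum (Finset.HasAntidiagonal.antidiagonal m) (fun _ => R * R')
    (fun p => PowerSeries.coeff p.1 U * PowerSeries.coeff p.2 V) (fun p hp => by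
      rw [Finset.HasAntidiagonal.mem_antidiagonal] at hp
      exact Helper7.PD.RankLe.mul (hU p.1 (by omega)) (hV p.2 (by omega)))
  refine h.mono ?_
  rw [Finset.sum_const, Finset.Nat.card_antidiagonal, smul_eq_mul]
  exact Nat.mul_le_mul_right _ (by omega)

theorem CR.sum {n D : ℕ} {ι : Type*} (s : Finset ι) (R : ι → ℕ)
    (U : ι → PowerSeries (MvPolynomial (Fin n) ℂ)) (h : ∀ i ∈ s, CR D (R i) (U i)) :
    CR D (∑ i ∈ s, R i) (∑ i ∈ s, U i) := by
  intro m hm
  rw [map_sum]
  exact RankLe.fsum s R _ fun i hi => h i hi m hm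

theorem CR.prod {n D : ℕ} {ι : Type*} (s : Finset ι) (R : ι → ℕ)
    (U : ι → PowerSeries (MvPolynomial (Fin n) ℂ)) (h : ∀ i ∈ s, CR D (R i) (U i)) :
    CR D ((D + 1) ^ s.card * ∏ i ∈ s, R i) (∏ i ∈ s, U i) := by
  classical
  induction s using Finset.induction_on with
  | empty =>
    rw [Finset.prod_empty, Finset.prod_empty]
    exact CR.one (by simp)
  | insert a s ha ih =>
    rw [Finset.prod_insert ha, Finset.prod_insert ha, Finset.card_insert_of_notMem ha]
    have h1 := CR.mul (h a (Finset.mem_insert_self a s))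
      (ih fun i hi => h i (Finset.mem_insert_of_mem hi))
    refine h1.mono (le_of_eq ?_)
    ring

theorem CR.det {n D r : ℕ} (Q : Fin r → ℕ)
    (E : Matrix (Fin r) (Fin r) (PowerSeries (MvPolynomial (Fin n) ℂ)))
    (h : ∀ b i, CR D (Q b) (E b i)) :
    CR D (r.factorial * ((D + 1) ^ r * ∏ b, Q b)) E.det := by
  rw [Matrix.det_apply]
  have h1 := CR.sum (D := D) (Finset.univ : Finset (Equiv.Perm (Fin r)))
    (fun _ => (D + 1) ^ r * ∏ b, Q b)
    (fun σ => Equiv.Perm.sign σ • ∏ i, E (σ i) i) (fun σ _ => by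
      have h2 := CR.prod (D := D) Finset.univ (fun i => Q (σ i)) (fun i => E (σ i) i)
        (fun i _ => h (σ i) i)
      rw [Finset.card_univ, Fintype.card_fin, Equiv.prod_comp σ Q] at h2
      rcases Int.units_eq_one_or (Equiv.Perm.sign σ) with hs | hs
      · rw [hs, one_smul]
        exact h2
      · rw [hs, Units.neg_smul, one_smul]
        exact CR.neg h2)
  refine h1.mono (le_of_eq ?_)
  rw [Finset.sum_const, Finset.card_univ, Fintype.card_perm, Fintype.card_fin, smul_eq_mul]

end Pool.Agent.Helper5.BD
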