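import Mathlib
import Pool.Agent.Helper5.BD.Rank

/-!
# BD-07: elementary symmetric functions from power sums

Newton: with `e b = esy lm b` and `p c = ∑ j, lm j ^ c`:
`(b + 1) • e (b + 1) = ∑ c ∈ antidiagonal b, (-1) ^ c.2 * e c.1 * p (c.2 + 1)`
(either the derivative of `Q = ∏ j, (1 + X * C (lm j))` and comparison of coefficients, using
`Q = (∏_{i ≠ j} …) * (1 + X C (lm j))` repeatedly; or `MvPolynomial.mul_esymm_eq_sum` (Newton identities in
Mathlib) mapped by `aeval lm`, together with `e b = aeval lm (MvPolynomial.esymm (Fin s) ℤ b)`, from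
`Multiset.prod_X_add_C_coeff` / `Finset.prod_one_add`).
With `Q₀ = (D + 1) * h + 1`: `CR D (Q₀ ^ b) (e b)` by strong induction: `e 0 = 1`, and
`CR D (∑_{c ≤ b} (D + 1) * (Q₀ ^ c * h)) ((b + 1) • e (b + 1))`, `(Q₀ - 1) * ∑_{c ≤ b} Q₀ ^ c < Q₀ ^ (b + 1)`;
then divide by `b + 1` (`CR.smul` with `(b + 1 : ℂ)⁻¹`).
-/

namespace Pool.Agent.Helper5.BD

open MvPolynomial

private theorem esy_eq {n s : ℕ} (lm : Fin s → PowerSeries (MvPolynomial (Fin n) ℂ)) (b : ℕ) :
    BD.esy lm b = aeval lm (MvPolynomial.esymm (Fin s) ℤ b) := by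
  rw [BD.esy, MvPolynomial.esymm, map_sum, Finset.prod_one_add, Polynomial.finsetSum_coeff,
    Finset.powersetCard_eq_filter, Finset.sum_filter]
  refine Finset.sum_congr rfl fun t _ => ?_
  have h0 : ∏ x ∈ t, Polynomial.C (lm x) = Polynomial.C (∏ x ∈ t, lm x) :=
    (map_prod Polynomial.C lm t).symm
  rw [Finset.prod_mul_distrib, Finset.prod_const, h0, Polynomial.coeff_X_pow_mul']
  split_ifs with h1 h2 h2
  · rw [h2, Nat.sub_self, Polynomial.coeff_C_zero, map_prod]
    exact Finset.prod_congr rfl fun i _ => (aeval_X _ _).symm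
  · rw [Polynomial.coeff_C_of_ne_zero (by omega)]
  · omega
  · rfl

private theorem geom (D h m : ℕ) :
    ∑ c ∈ Finset.range m, (D + 1) * (((D + 1) * h + 1) ^ c * h) + 1 = ((D + 1) * h + 1) ^ m := by
  induction m with
  | zero => simp
  | succ m ih =>
    rw [Finset.sum_range_succ, pow_succ, ← ih]
    ring

private theorem CR.sign {n D R : ℕ} {U : PowerSeries (MvPolynomial (Fin n) ℂ)} (h : CR D R U)
    (j : ℕ) : CR D R ((-1) ^ j * U) := by
  rcases neg_one_pow_eq_or (PowerSeries (MvPolynomial (Fin n) ℂ)) j with hj | hj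
  · rw [hj, one_mul]
    exact h
  · rw [hj, neg_one_mul]
    exact CR.neg h

theorem CR.esy {n D s h k : ℕ} (lm : Fin s → PowerSeries (MvPolynomial (Fin n) ℂ))
    (hp : ∀ c, 1 ≤ c → c ≤ k → CR D h (∑ j, lm j ^ c)) (b : ℕ) (hb : b ≤ k) :
    CR D (((D + 1) * h + 1) ^ b) (BD.esy lm b) := by
  induction b using Nat.strong_induction_on with
  | _ b ih =>
    rcases b with _ | b
    · have h0 : BD.esy lm 0 = 1 := by
        rw [esy_eq, MvPolynomial.esymm_zero, map_one]
      rw [h0]
      exact CR.one (by simp)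
    · set Q := (D + 1) * h + 1 with hQ
      have hN := congrArg (aeval lm) (MvPolynomial.mul_esymm_eq_sum (Fin s) ℤ (b + 1))
      rw [map_mul, map_natCast, ← esy_eq, map_mul, map_pow, map_neg, map_one, map_sum] at hN
      have h1 : CR D (∑ a ∈ (Finset.HasAntidiagonal.antidiagonal (b + 1)).filter
          (fun a => a.1 < b + 1), (D + 1) * (Q ^ a.1 * h))
          (∑ a ∈ (Finset.HasAntidiagonal.antidiagonal (b + 1)).filter (fun a => a.1 < b + 1),
            aeval lm ((-1) ^ a.1 * MvPolynomial.esymm (Fin s) ℤ a.1 *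
              MvPolynomial.psum (Fin s) ℤ a.2)) := by
        refine CR.sum _ _ _ fun a ha => ?_
        rw [Finset.mem_filter, Finset.HasAntidiagonal.mem_antidiagonal] at ha
        rw [map_mul, map_mul, map_pow, map_neg, map_one, ← esy_eq, mul_assoc]
        refine CR.sign (CR.mul (ih a.1 ha.2 (by omega)) ?_) _
        have h2 : aeval lm (MvPolynomial.psum (Fin s) ℤ a.2) = ∑ j, lm j ^ a.2 := by
          rw [MvPolynomial.psum, map_sum]
          refine Finset.sum_congr rfl fun j _ => ?_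
          rw [map_pow, aeval_X]
        rw [h2]
        exact hp a.2 (by omega) (by omega)
      have h3 : ∑ a ∈ (Finset.HasAntidiagonal.antidiagonal (b + 1)).filter
          (fun a => a.1 < b + 1), (D + 1) * (Q ^ a.1 * h) ≤ Q ^ (b + 1) := by
        rw [Finset.sum_filter, Finset.Nat.sum_antidiagonal_eq_sum_range_succ_mk,
          Finset.sum_range_succ, if_neg (lt_irrefl _), add_zero]
        have h4 : ∑ k ∈ Finset.range (b + 1), (if (k, b + 1 - k).1 < b + 1 then
            (D + 1) * (Q ^ (k, b + 1 - k).1 * h) else 0) =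
            ∑ c ∈ Finset.range (b + 1), (D + 1) * (Q ^ c * h) := by
          refine Finset.sum_congr rfl fun k hk => ?_
          rw [if_pos (Finset.mem_range.1 hk)]
        rw [h4]
        have h5 := geom D h (b + 1)
        rw [← hQ] at h5
        omega
      have h6 := (CR.sign h1 (b + 1 + 1)).mono h3
      rw [← hN] at h6
      have h7 := CR.smul ((b + 1 : ℕ) : ℂ)⁻¹ h6
      have h8 : ((b + 1 : ℕ) : ℂ)⁻¹ • (((b + 1 : ℕ) : PowerSeries (MvPolynomial (Fin n) ℂ)) *
          BD.esy lm (b + 1)) = BD.esy lm (b + 1) := by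
        rw [← nsmul_eq_mul, ← Nat.cast_smul_eq_nsmul ℂ, inv_smul_smul₀]
        exact Nat.cast_ne_zero.2 (Nat.succ_ne_zero b)
      rw [h8] at h7
      exact h7

end Pool.Agent.Helper5.BD
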