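import Mathlib
import Pool.Agent.Helper5.BD.Rank

/-!
# BD-09: the polynomial factor

The coefficient of `z' ^ m` of `loc β (H n c P)` at a point `(y, x)` is the coefficient of `z' ^ m w ^ c` of
`P (β + z' y + w x)`. From `P (X + Y) = ∑ k < ρ, A k (X) B k (Y)`:
`P (β + z' (y + y') + w (x + x')) = ∑ k, A k (β + z' y + w x) * B k (z' y' + w x')`, and the coefficient of
`z' ^ m w ^ c` is `∑ k, ∑ m₁ + m₂ = m, ∑ c₁ + c₂ = c, [z' ^ m₁ w ^ c₁] (A k (β + z' y + w x)) *
[z' ^ m₂ w ^ c₂] (B k (z' y' + w x'))`: rank `≤ ρ * (m + 1) * (c + 1)`.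
(The polynomials are `PowerSeries.coeff m₁ (loc β (H n c₁ (A k)))` and
`PowerSeries.coeff m₂ (loc 0 (H n c₂ (B k)))`. The identity `P (X + Y) = ∑ …` holds for all complex points,
hence as polynomials in `X, Y`, hence after every substitution into a commutative `ℂ`-algebra.)
-/

namespace Pool.Agent.Helper5.BD

open MvPolynomial

private theorem rank_of {n r : ℕ} {f : MvPolynomial (Fin n) ℂ} {ι : Type*} [Fintype ι]
    (hι : Fintype.card ι ≤ r) (A B : ι → MvPolynomial (Fin n) ℂ)
    (h : ∀ x y : Fin n → ℂ, eval (x + y) f = ∑ k, eval x (A k) * eval y (B k)) :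
    Helper7.PD.RankLe r f := by
  obtain ⟨e⟩ := Function.Embedding.nonempty_of_card_le (α := ι) (β := Fin r)
    (by rw [Fintype.card_fin]; exact hι)
  refine ⟨Function.extend e A 0, Function.extend e B 0, fun x y => ?_⟩
  rw [h]
  refine Fintype.sum_of_injective e e.injective _ _ ?_ ?_
  · intro k hk
    rw [Function.extend_apply' _ _ _ (fun ⟨i, hi⟩ => hk ⟨i, hi⟩)]
    simp
  · intro i
    rw [e.injective.extend_apply, e.injective.extend_apply]

/-- `P (β + z y + w x)`, a polynomial in `w` over the power series in `z`. -/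
private noncomputable def Th {n : ℕ} (β y x : Fin n → ℂ) :
    MvPolynomial (Fin n) ℂ →ₐ[ℂ] Polynomial (PowerSeries ℂ) :=
  aeval fun i => Polynomial.C (PowerSeries.C (β i) + PowerSeries.X * PowerSeries.C (y i)) +
    Polynomial.X * Polynomial.C (PowerSeries.C (x i))

private theorem eval_loc_H {n : ℕ} (β : Fin n → ℂ) (P : MvPolynomial (Fin n) ℂ) (c m : ℕ)
    (v : Fin (n + n) → ℂ) :
    eval v (PowerSeries.coeff m (loc β (H n c P))) =
      PowerSeries.coeff m ((Th β (fun i => v (Fin.castAdd n i)) (fun i => v (Fin.natAdd n i))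
        P).coeff c) := by
  have h : (Polynomial.mapRingHom (PowerSeries.map (eval v))).comp
      ((Polynomial.mapRingHom (loc β : MvPolynomial (Fin (n + n)) ℂ →+*
        PowerSeries (MvPolynomial (Fin (n + n)) ℂ))).comp
      (G n : MvPolynomial (Fin n) ℂ →+* Polynomial (MvPolynomial (Fin (n + n)) ℂ))) =
      (Th β (fun i => v (Fin.castAdd n i)) (fun i => v (Fin.natAdd n i)) :
        MvPolynomial (Fin n) ℂ →+* Polynomial (PowerSeries ℂ)) := by
    apply MvPolynomial.ringHom_ext
    · intro a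
      have h1 : (G n (C a)) = Polynomial.C (C a) := by
        simp [G, MvPolynomial.algebraMap_eq, Polynomial.algebraMap_apply]
      have h2 : loc β (C a) = PowerSeries.C (C a) := by
        simp [loc, MvPolynomial.algebraMap_eq, PowerSeries.algebraMap_apply]
      have h3 : Th β (fun i => v (Fin.castAdd n i)) (fun i => v (Fin.natAdd n i)) (C a) =
          Polynomial.C (PowerSeries.C a) := by
        simp [Th, Polynomial.algebraMap_apply]
      rw [RingHom.comp_apply, RingHom.comp_apply, RingHom.coe_coe, RingHom.coe_coe, h1, h3,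
        Polynomial.coe_mapRingHom, Polynomial.coe_mapRingHom, Polynomial.map_C, Polynomial.map_C,
        RingHom.coe_coe, h2, PowerSeries.map_C, eval_C]
    · intro i
      have h1 : loc β (yv i) = PowerSeries.C (C (β i)) + PowerSeries.X * PowerSeries.C (yv i) := by
        rw [loc, yv, aeval_X, Fin.append_left]
        rfl
      have h2 : loc β (xv i) = PowerSeries.C (xv i) := by
        rw [loc, xv, aeval_X, Fin.append_right]
        rfl
      rw [RingHom.comp_apply, RingHom.comp_apply, RingHom.coe_coe, RingHom.coe_coe, G, Th, aeval_X,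
        aeval_X, Polynomial.coe_mapRingHom, Polynomial.coe_mapRingHom, Polynomial.map_add,
        Polynomial.map_mul, Polynomial.map_C, Polynomial.map_C, Polynomial.map_X,
        Polynomial.map_add, Polynomial.map_mul, Polynomial.map_C, Polynomial.map_C,
        Polynomial.map_X, RingHom.coe_coe, h1, h2, map_add, map_mul, PowerSeries.map_C,
        PowerSeries.map_C, PowerSeries.map_C, PowerSeries.map_X, eval_C, yv, xv, eval_X, eval_X]
  have h1 := congrArg (fun φ => PowerSeries.coeff m ((φ P).coeff c)) h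
  simp only [RingHom.comp_apply, RingHom.coe_coe, Polynomial.coe_mapRingHom,
    Polynomial.coeff_map, PowerSeries.coeff_map] at h1
  exact h1

private theorem aeval_add_of {n ρ : ℕ} {P : MvPolynomial (Fin n) ℂ}
    {A B : Fin ρ → MvPolynomial (Fin n) ℂ}
    (h : ∀ x y : Fin n → ℂ, eval (x + y) P = ∑ k, eval x (A k) * eval y (B k))
    {S : Type*} [CommRing S] [Algebra ℂ S] (a b : Fin n → S) :
    aeval (a + b) P = ∑ k, aeval a (A k) * aeval b (B k) := by
  have h1 : aeval (fun i => X (Sum.inl i) + X (Sum.inr i)) P =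
      ∑ k, rename (Sum.inl : Fin n → Fin n ⊕ Fin n) (A k) *
        rename (Sum.inr : Fin n → Fin n ⊕ Fin n) (B k) := by
    apply MvPolynomial.funext
    intro p
    have h2 : eval p (aeval (fun i => X (Sum.inl i) + X (Sum.inr i)) P :
        MvPolynomial (Fin n ⊕ Fin n) ℂ) = eval (p ∘ Sum.inl + p ∘ Sum.inr) P := by
      have h3 : ((aeval p : MvPolynomial (Fin n ⊕ Fin n) ℂ →ₐ[ℂ] ℂ).comp
          (aeval (fun i => X (Sum.inl i) + X (Sum.inr i)) :
            MvPolynomial (Fin n) ℂ →ₐ[ℂ] MvPolynomial (Fin n ⊕ Fin n) ℂ)) =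
          aeval (p ∘ Sum.inl + p ∘ Sum.inr) := by
        apply MvPolynomial.algHom_ext
        intro i
        simp
      have h4 := congrArg (fun φ => φ P) h3
      simpa [MvPolynomial.coe_aeval_eq_eval] using h4
    rw [h2, h, map_sum]
    refine Finset.sum_congr rfl fun k _ => ?_
    rw [map_mul, eval_rename, eval_rename]
  have h5 := congrArg (aeval (Sum.elim a b)) h1
  rw [map_sum] at h5
  have h6 : aeval (Sum.elim a b) (aeval (fun i => X (Sum.inl i) + X (Sum.inr i)) P :
      MvPolynomial (Fin n ⊕ Fin n) ℂ) = aeval (a + b) P := by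
    have h3 : ((aeval (Sum.elim a b) : MvPolynomial (Fin n ⊕ Fin n) ℂ →ₐ[ℂ] S).comp
        (aeval (fun i => X (Sum.inl i) + X (Sum.inr i)) :
          MvPolynomial (Fin n) ℂ →ₐ[ℂ] MvPolynomial (Fin n ⊕ Fin n) ℂ)) = aeval (a + b) := by
      apply MvPolynomial.algHom_ext
      intro i
      simp
    exact congrArg (fun φ => φ P) h3
  rw [h6] at h5
  rw [h5]
  refine Finset.sum_congr rfl fun k _ => ?_
  rw [map_mul, aeval_rename, aeval_rename, Sum.elim_comp_inl, Sum.elim_comp_inr]

private theorem Th_add {n ρ : ℕ} {P : MvPolynomial (Fin n) ℂ}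
    {A B : Fin ρ → MvPolynomial (Fin n) ℂ}
    (h : ∀ x y : Fin n → ℂ, eval (x + y) P = ∑ k, eval x (A k) * eval y (B k))
    (β y x y' x' : Fin n → ℂ) :
    Th β (y + y') (x + x') P = ∑ k, Th β y x (A k) * Th 0 y' x' (B k) := by
  have h1 : (fun i => Polynomial.C (PowerSeries.C (β i) + PowerSeries.X * PowerSeries.C ((y + y') i)) +
      Polynomial.X * Polynomial.C (PowerSeries.C ((x + x') i)) : Fin n → Polynomial (PowerSeries ℂ)) =
      (fun i => Polynomial.C (PowerSeries.C (β i) + PowerSeries.X * PowerSeries.C (y i)) +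
        Polynomial.X * Polynomial.C (PowerSeries.C (x i))) +
      (fun i => Polynomial.C (PowerSeries.C ((0 : Fin n → ℂ) i) +
        PowerSeries.X * PowerSeries.C (y' i)) +
        Polynomial.X * Polynomial.C (PowerSeries.C (x' i))) := by
    funext i
    rw [Pi.add_apply, Pi.add_apply, Pi.add_apply, Pi.zero_apply]
    rw [map_add (PowerSeries.C : ℂ →+* PowerSeries ℂ) (y i) (y' i),
      map_add (PowerSeries.C : ℂ →+* PowerSeries ℂ) (x i) (x' i),
      map_zero (PowerSeries.C : ℂ →+* PowerSeries ℂ)]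
    simp only [Polynomial.C_add, Polynomial.C_mul, Polynomial.C_0]
    ring
  have h2 := aeval_add_of h
    (fun i => Polynomial.C (PowerSeries.C (β i) + PowerSeries.X * PowerSeries.C (y i)) +
        Polynomial.X * Polynomial.C (PowerSeries.C (x i)) : Fin n → Polynomial (PowerSeries ℂ))
    (fun i => Polynomial.C (PowerSeries.C ((0 : Fin n → ℂ) i) +
        PowerSeries.X * PowerSeries.C (y' i)) +
        Polynomial.X * Polynomial.C (PowerSeries.C (x' i)))
  rw [← h1] at h2
  unfold Th
  exact h2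

theorem CR.loc_H {n D ρ k : ℕ} (β : Fin n → ℂ) {P : MvPolynomial (Fin n) ℂ}
    (hP : Helper7.PD.RankLe ρ P) (c : ℕ) (hc : c ≤ k) :
    CR D (ρ * ((D + 1) * (k + 1))) (loc β (H n c P)) := by
  intro m hm
  obtain ⟨A, B, hAB⟩ := hP
  refine rank_of (ι := Fin ρ × ↥(Finset.HasAntidiagonal.antidiagonal c) ×
      ↥(Finset.HasAntidiagonal.antidiagonal m)) ?_
    (fun q => PowerSeries.coeff q.2.2.1.1 (loc β (H n q.2.1.1.1 (A q.1))))
    (fun q => PowerSeries.coeff q.2.2.1.2 (loc 0 (H n q.2.1.1.2 (B q.1)))) ?_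
  · rw [Fintype.card_prod, Fintype.card_prod, Fintype.card_fin, Fintype.card_coe, Fintype.card_coe,
      Finset.Nat.card_antidiagonal, Finset.Nat.card_antidiagonal]
    refine Nat.mul_le_mul_left _ ?_
    rw [mul_comm]
    exact Nat.mul_le_mul (by omega) (by omega)
  · intro v v'
    have h0 := Th_add hAB β (fun i => v (Fin.castAdd n i)) (fun i => v (Fin.natAdd n i))
      (fun i => v' (Fin.castAdd n i)) (fun i => v' (Fin.natAdd n i))
    rw [eval_loc_H]
    have h1 : (fun i => (v + v') (Fin.castAdd n i)) =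
        (fun i => v (Fin.castAdd n i)) + (fun i => v' (Fin.castAdd n i)) := rfl
    have h2 : (fun i => (v + v') (Fin.natAdd n i)) =
        (fun i => v (Fin.natAdd n i)) + (fun i => v' (Fin.natAdd n i)) := rfl
    rw [h1, h2, h0, Polynomial.finsetSum_coeff, map_sum, Fintype.sum_prod_type]
    refine Finset.sum_congr rfl fun i _ => ?_
    rw [Polynomial.coeff_mul, map_sum, Fintype.sum_prod_type, ← Finset.sum_coe_sort]
    refine Finset.sum_congr rfl fun a _ => ?_
    rw [PowerSeries.coeff_mul, ← Finset.sum_coe_sort]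
    refine Finset.sum_congr rfl fun b _ => ?_
    rw [eval_loc_H, eval_loc_H]

end Pool.Agent.Helper5.BD
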