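import Mathlib
import Pool.Agent.Helper5.BD.Rank

/-!
# BD-08: the power sums of the `λ j`

`linv β l = ∑ m, C (a m) * (linY l) ^ m z' ^ m`, a geometric series: with
`g = PowerSeries.C (C c) * (1 - X * C u)⁻¹`-type reasoning, or directly: the coefficient of `z' ^ m` of
`linv β l ^ c` is a constant times `linY l ^ m` (induction on `c`, `PowerSeries.coeff_mul`). Hence the
coefficient of `z' ^ m` of `lam β l ^ c = C (linX l ^ c) * linv β l ^ c` is a constant times
`linX l ^ c * linY l ^ m`, which is `aeval ![linX l, linY l] (monomial …)` with a monomial of degree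
`≤ c + m ≤ k + D`: `RankLe.few_affine` (`κ = 2`) gives rank `≤ (k + D + 1) ^ 2`. Sum over `j : Fin s`.
-/

namespace Pool.Agent.Helper5.BD

open MvPolynomial

private theorem coeff_linv_pow {n : ℕ} (β : Fin n → ℂ) (l : MvPolynomial (Fin n) ℂ) (c : ℕ) :
    ∀ m : ℕ, ∃ a : ℂ, PowerSeries.coeff m (linv β l ^ c) = C a * linY l ^ m := by
  induction c with
  | zero =>
    intro m
    refine ⟨if m = 0 then 1 else 0, ?_⟩
    rw [pow_zero, PowerSeries.coeff_one]
    split_ifs with h
    · subst h
      simp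
    · simp
  | succ c ih =>
    intro m
    choose a ha using ih
    refine ⟨∑ p ∈ Finset.HasAntidiagonal.antidiagonal m,
      a p.1 * ((-1) ^ p.2 * (eval β l)⁻¹ ^ (p.2 + 1)), ?_⟩
    rw [pow_succ, PowerSeries.coeff_mul, map_sum, Finset.sum_mul]
    refine Finset.sum_congr rfl fun p hp => ?_
    have hp' : p.1 + p.2 = m := Finset.HasAntidiagonal.mem_antidiagonal.1 hp
    rw [ha, linv, PowerSeries.coeff_mk, ← hp', pow_add (linY l)]
    generalize (-1 : ℂ) ^ p.2 * (eval β l)⁻¹ ^ (p.2 + 1) = b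
    rw [C_mul]
    ring

private theorem degree_lin {n : ℕ} (l : MvPolynomial (Fin n) ℂ)
    (v : Fin n → MvPolynomial (Fin (n + n)) ℂ) (hv : ∀ i, (v i).totalDegree ≤ 1) :
    (∑ i, C (coeff (Finsupp.single i 1) l) * v i).totalDegree ≤ 1 := by
  refine (totalDegree_finsetSum_le fun i _ => ?_)
  refine (totalDegree_mul _ _).trans ?_
  rw [totalDegree_C, zero_add]
  exact hv i

private theorem degree_linX {n : ℕ} (l : MvPolynomial (Fin n) ℂ) : (linX l).totalDegree ≤ 1 :=
  degree_lin l xv fun i => by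
    rw [xv, totalDegree_X]

private theorem degree_linY {n : ℕ} (l : MvPolynomial (Fin n) ℂ) : (linY l).totalDegree ≤ 1 :=
  degree_lin l yv fun i => by
    rw [yv, totalDegree_X]

private theorem rank_lam {n D k : ℕ} (β : Fin n → ℂ) (l : MvPolynomial (Fin n) ℂ) (c : ℕ)
    (hc : c ≤ k) (m : ℕ) (hm : m ≤ D) :
    Helper7.PD.RankLe ((k + D + 1) ^ 2) (PowerSeries.coeff m (lam β l ^ c)) := by
  obtain ⟨a, ha⟩ := coeff_linv_pow β l c m
  have h1 : PowerSeries.coeff m (lam β l ^ c) =
      aeval ![linX l, linY l] (C a * X 0 ^ c * X 1 ^ m : MvPolynomial (Fin 2) ℂ) := by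
    rw [lam, mul_pow, ← map_pow, PowerSeries.coeff_C_mul, ha]
    simp only [map_mul, map_pow, aeval_X, aeval_C, MvPolynomial.algebraMap_eq,
      Matrix.cons_val_zero, Matrix.cons_val_one]
    ring
  rw [h1]
  refine Helper7.PD.RankLe.few_affine _ ?_ _ ?_
  · intro j
    fin_cases j
    · exact degree_linX l
    · exact degree_linY l
  · refine (totalDegree_mul _ _).trans (Nat.add_le_add ((totalDegree_mul _ _).trans ?_) ?_)
    · rw [totalDegree_C, zero_add]
      refine (totalDegree_pow _ _).trans ?_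
      rw [totalDegree_X, mul_one]
      exact hc
    · refine (totalDegree_pow _ _).trans ?_
      rw [totalDegree_X, mul_one]
      exact hm

theorem CR.powersum {n D s k : ℕ} (β : Fin n → ℂ) (l : Fin s → MvPolynomial (Fin n) ℂ) (c : ℕ)
    (hc : c ≤ k) : CR D (s * (k + D + 1) ^ 2) (∑ j, lam β (l j) ^ c) := by
  intro m hm
  rw [map_sum]
  have h := Helper7.PD.RankLe.sum (fun j => PowerSeries.coeff m (lam β (l j) ^ c))
    (fun _ => (k + D + 1) ^ 2) fun j => rank_lam β (l j) c hc m hm
  rwa [Finset.sum_const, Finset.card_univ, Fintype.card_fin, smul_eq_mul] at h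

end Pool.Agent.Helper5.BD
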