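import Mathlib
import Pool.Agent.Helper5.BD.Newton
import Pool.Agent.Helper5.BD.Power
import Pool.Agent.Helper5.BD.PolyPart

/-!
# BD-13: the rank bound of the determinant

`ent β P l b` is a sum over the antidiagonal of `b ≤ k` of products; `CR.sum`, `CR.mul`, `CR.loc_H`,
`CR.esy` with `h = s * (k + D + 1) ^ 2` (`CR.powersum`), `Q₀ ^ c.2 ≤ Q₀ ^ k`, `b + 1 ≤ k + 1`. Then `CR.det`
with constant `Q`, `r ! ≤ k !`, powers with exponent `r ≤ k` of positive numbers (`ρ + 1 ≥ 1`).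
-/

namespace Pool.Agent.Helper5.BD

open MvPolynomial

/-- The bound for one entry. -/
def rkE (k s ρ D : ℕ) : ℕ :=
  (ρ + 1) * (k + 1) ^ 2 * (D + 1) ^ 2 * ((D + 1) * (s * (k + D + 1) ^ 2) + 1) ^ k

/-- The bound for the determinant. -/
def rk (k s ρ D : ℕ) : ℕ := k.factorial * ((D + 1) ^ k * rkE k s ρ D ^ k)

theorem CR.ent {n D k s ρ : ℕ} (β : Fin n → ℂ) {P : MvPolynomial (Fin n) ℂ}
    (hP : Helper7.PD.RankLe ρ P) (l : Fin s → MvPolynomial (Fin n) ℂ) (b : ℕ) (hb : b ≤ k) :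
    CR D (rkE k s ρ D) (BD.ent β P l b) := by
  obtain ⟨Q₀, hQ₀⟩ : ∃ Q₀, Q₀ = (D + 1) * (s * (k + D + 1) ^ 2) + 1 := ⟨_, rfl⟩
  have hQ1 : 1 ≤ Q₀ := by omega
  have hterm : ∀ c ∈ Finset.HasAntidiagonal.antidiagonal b,
      CR D ((D + 1) * (ρ * ((D + 1) * (k + 1)) * Q₀ ^ k))
        (loc β (H n c.1 P) * BD.esy (fun j => lam β (l j)) c.2) := by
    intro c hc
    have hc' : c.1 + c.2 = b := Finset.HasAntidiagonal.mem_antidiagonal.1 hc
    have h1 : CR D (ρ * ((D + 1) * (k + 1))) (loc β (H n c.1 P)) :=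
      CR.loc_H β hP c.1 (by omega)
    have h2 : CR D (Q₀ ^ c.2) (BD.esy (fun j => lam β (l j)) c.2) := by
      rw [hQ₀]
      exact CR.esy (k := k) (fun j => lam β (l j)) (fun e _ he => CR.powersum β l e he) c.2 (by omega)
    have h3 : CR D (Q₀ ^ k) (BD.esy (fun j => lam β (l j)) c.2) :=
      h2.mono (Nat.pow_le_pow_right hQ1 (by omega))
    exact h1.mul h3
  have hs := CR.sum (Finset.HasAntidiagonal.antidiagonal b)
    (fun _ => (D + 1) * (ρ * ((D + 1) * (k + 1)) * Q₀ ^ k)) _ hterm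
  rw [Finset.sum_const, Finset.Nat.card_antidiagonal, smul_eq_mul] at hs
  refine CR.mono hs ?_
  rw [rkE, ← hQ₀]
  calc (b + 1) * ((D + 1) * (ρ * ((D + 1) * (k + 1)) * Q₀ ^ k))
      ≤ (k + 1) * ((D + 1) * ((ρ + 1) * ((D + 1) * (k + 1)) * Q₀ ^ k)) := by gcongr; omega
    _ = (ρ + 1) * (k + 1) ^ 2 * (D + 1) ^ 2 * Q₀ ^ k := by ring

theorem CR.det_ent {n D k s ρ r : ℕ} (hr : r ≤ k) (β : Fin n → ℂ)
    (P : Fin r → MvPolynomial (Fin n) ℂ) (hP : ∀ i, Helper7.PD.RankLe ρ (P i))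
    (l : Fin r → Fin s → MvPolynomial (Fin n) ℂ) (a : Fin (r + 1)) :
    CR D (rk k s ρ D)
      (Matrix.det (Matrix.of fun b i : Fin r => BD.ent β (P i) (l i) (a.succAbove b))) := by
  have hE : ∀ b i : Fin r, CR D (rkE k s ρ D)
      ((Matrix.of fun b i : Fin r => BD.ent β (P i) (l i) (a.succAbove b)) b i) := by
    intro b i
    rw [Matrix.of_apply]
    refine CR.ent β (hP i) (l i) _ ?_
    have := (a.succAbove b).isLt
    omega
  have h := CR.det (fun _ => rkE k s ρ D) _ hE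
  refine CR.mono h ?_
  rw [Finset.prod_const, Finset.card_univ, Fintype.card_fin, rk]
  have h1 : 1 ≤ rkE k s ρ D := by
    rw [rkE]
    exact Nat.succ_le_of_lt (by positivity)
  exact Nat.mul_le_mul (Nat.factorial_le hr)
    (Nat.mul_le_mul (Nat.pow_le_pow_right (by omega) hr) (Nat.pow_le_pow_right h1 hr))

end Pool.Agent.Helper5.BD
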