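import Mathlib
import Pool.Agent.Helper7.PD.Final
import Pool.Agent.Helper5.BD.Entry

/-!
# The hitting set
-/

namespace Pool.Agent.Helper5.BD

open MvPolynomial

/-- The hitting set: `w ^ (i + 1) + z' v_i + z x_i`. -/
def hset (n k s p ρ : ℕ) : Finset (Fin n → ℕ) :=
  (Finset.range (k * s * n + 1) ×ˢ Finset.range (k * (p + s) + 1) ×ˢ
    Helper7.PD.hittingSet (n + n) (2 * (k * (p + s))) (rk k s ρ (k * (p + s))) ×ˢ
    Finset.range (p + s + 1) ×ˢ Helper7.PD.hittingSet n k ((n + 1) ^ k * (k + 1) ^ k)).image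
  fun c i => c.1 ^ ((i : ℕ) + 1) + c.2.1 * c.2.2.1 (Fin.castAdd n i) + c.2.2.2.1 * c.2.2.2.2 i

end Pool.Agent.Helper5.BD
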