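import Mathlib
import Pool.Agent.Helper5.BD.Set
import Pool.Agent.Helper5.BD.STcalc
import Pool.Agent.Helper5.BD.Factor
import Pool.Agent.Helper5.BD.Closed
import Pool.Agent.Helper5.BD.DegA
import Pool.Agent.Helper5.BD.DegB
import Pool.Agent.Helper5.BD.Norm
import Pool.Agent.Helper5.BD.LimitB

/-!
# The ordinary point (helper5)
-/

namespace Pool.Agent.Helper5.BD

open MvPolynomial Filter Topology

private theorem term_degree {n s p : ℕ} {P : MvPolynomial (Fin n) ℂ}
    {l : Fin s → MvPolynomial (Fin n) ℂ} (hP : P.totalDegree ≤ p)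
    (hl : ∀ j, (l j).totalDegree ≤ 1) : (P * ∏ j, l j).totalDegree ≤ p + s := by
  refine (totalDegree_mul _ _).trans (Nat.add_le_add hP ?_)
  refine (totalDegree_finsetProd _ _).trans ?_
  calc ∑ j, (l j).totalDegree ≤ ∑ _j : Fin s, 1 := Finset.sum_le_sum fun j _ => hl j
    _ = s := by simp

theorem IsTerm.totalDegree_le {n s p ρ : ℕ} {T : MvPolynomial (Fin n) ℂ} (h : IsTerm s p ρ T) :
    T.totalDegree ≤ p + s := by
  obtain ⟨P, l, hP, -, hl, rfl⟩ := h
  exact term_degree hP hl

private theorem CR.sign {n D R : ℕ} (e : ℕ) {U : PowerSeries (MvPolynomial (Fin n) ℂ)}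
    (h : CR D R U) : CR D R ((-1) ^ e * U) := by
  rcases neg_one_pow_eq_or (PowerSeries (MvPolynomial (Fin n) ℂ)) e with h1 | h1
  · rw [h1, one_mul]
    exact h
  · rw [h1, neg_one_mul]
    exact h.neg

theorem alpha {n k s p ρ r : ℕ} (F : Ultrafilter ℕ) (hr : r ≤ k)
    (T : ℕ → Fin r → MvPolynomial (Fin n) ℂ) (hT : ∀ t i, IsTerm s p ρ (T t i))
    (h0 : ∀ t i, T t i ≠ 0) (c : ℕ → ℂ) (a : Fin (r + 1)) {M : MvPolynomial (Fin (n + n)) ℂ}
    (hM : PTendsto F (fun t => c t • minor (T t) a) M) (hMD : M.totalDegree ≤ k * (p + s))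
    (hM0 : M ≠ 0) :
    ∃ w ≤ k * s * n, ∃ v ∈ Helper7.PD.hittingSet (n + n) (2 * (k * (p + s)))
        (rk k s ρ (k * (p + s))), ∃ z ≤ k * (p + s),
      eval (Fin.append (fun i : Fin n => (w : ℂ) ^ ((i : ℕ) + 1) + z * (v (Fin.castAdd n i) : ℂ))
        (fun i => (v (Fin.natAdd n i) : ℂ))) M ≠ 0 := by
  classical
  have hnt := fun t i => normTerm (hT t i) (h0 t i)
  choose P l hPd hPr hl1 hlb hln hTe using hnt
  have hlim : ∀ i j, ∃ v : MvPolynomial (Fin n) ℂ, v.totalDegree ≤ 1 ∧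
      PTendsto F (fun t => l t i j) v := fun i j =>
    exists_lim F _ (Eventually.of_forall fun t => hl1 t i j)
      (Eventually.of_forall fun t m => hlb t i j m)
  choose L hL1 hLt using hlim
  have hL0 : ∀ i j, L i j ≠ 0 := by
    intro i j
    obtain ⟨_, h⟩ := exists_ne_zero (D := 1) (ι := Unit) F (fun t _ => l t i j)
      (fun _ => L i j) (Eventually.of_forall fun t _ => hl1 t i j)
      (Eventually.of_forall fun t => (hln t i j).elim fun m hm => ⟨(), m, hm⟩)
      (fun _ => hLt i j)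
    exact h
  obtain ⟨w, hw, hβ0⟩ := exists_moment (N := k * s) (ι := Fin r × Fin s)
    (by rw [Fintype.card_prod, Fintype.card_fin, Fintype.card_fin]; exact Nat.mul_le_mul_right _ hr)
    (fun q => L q.1 q.2) (fun q => hL1 _ _) (fun q => hL0 _ _)
  refine ⟨w, hw, ?_⟩
  obtain ⟨β, hβd⟩ : ∃ β : Fin n → ℂ, β = fun i : Fin n => (w : ℂ) ^ ((i : ℕ) + 1) := ⟨_, rfl⟩
  rw [← hβd] at hβ0
  have hβ : ∀ i j, eval β (L i j) ≠ 0 := fun i j => hβ0 (i, j)
  obtain ⟨D, hD⟩ : ∃ D, D = k * (p + s) := ⟨_, rfl⟩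
  rw [← hD] at hMD ⊢
  -- degrees
  have hTdeg : ∀ t i, (T t i).totalDegree ≤ p + s := fun t i => (hT t i).totalDegree_le
  have hmdeg : ∀ t, (c t • minor (T t) a).totalDegree ≤ D := fun t => by
    refine (totalDegree_smul_le _ _).trans ((totalDegree_minor (T t) (hTdeg t) a).trans ?_)
    rw [hD]
    exact Nat.mul_le_mul_right _ hr
  -- the power series
  have hVW : STendsto F
      (fun t => loc β (c t • minor (T t) a) * ∏ i, ∏ j, linv β (l t i j))
      (loc β M * ∏ i, ∏ j, linv β (L i j)) := by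
    refine STendsto.mul (STendsto.loc β (Eventually.of_forall hmdeg) hMD hM) ?_
    refine STendsto.prod _ fun i _ => STendsto.prod _ fun j _ => ?_
    exact STendsto.linv β (Eventually.of_forall fun t => hl1 t i j) (hL1 i j) (hLt i j) (hβ i j)
  have hev : ∀ᶠ t in (F : Filter ℕ), ∀ i j, eval β (l t i j) ≠ 0 := by
    rw [eventually_all]
    intro i
    rw [eventually_all]
    intro j
    have h1 : Tendsto (fun t => eval β (l t i j)) F (𝓝 (eval β (L i j))) :=
      tendsto_linear F (Eventually.of_forall fun t => hl1 t i j) (hL1 i j) (hLt i j)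
        (MvPolynomial.aeval β : MvPolynomial (Fin n) ℂ →ₐ[ℂ] ℂ).toLinearMap
    exact h1.eventually_ne (hβ i j)
  have hCR : ∀ᶠ t in (F : Filter ℕ), CR D (rk k s ρ D)
      (loc β (c t • minor (T t) a) * ∏ i, ∏ j, linv β (l t i j)) := by
    filter_upwards [hev] with t ht
    have h1 := loc_minor β (P t) (l t) (hl1 t) ht a
    have h2 : (fun i => P t i * ∏ j, l t i j) = T t := funext fun i => (hTe t i).symm
    rw [h2] at h1
    rw [map_smul, smul_mul_assoc, h1]
    exact (CR.sign _ (CR.det_ent hr β (P t) (hPr t) (l t) a)).smul _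
  have hrank : ∀ m ≤ D, Helper7.PD.RankLe (rk k s ρ D)
      (PowerSeries.coeff m (loc β M * ∏ i, ∏ j, linv β (L i j))) := by
    intro m hm
    refine rankLe_of_tendsto F (fun t => PowerSeries.coeff m
      (loc β (c t • minor (T t) a) * ∏ i, ∏ j, linv β (l t i j))) _ ?_ (fun x => hVW x m)
    filter_upwards [hCR] with t ht using ht m hm
  -- a nonzero coefficient
  have hne : ∃ m ≤ D, PowerSeries.coeff m (loc β M * ∏ i, ∏ j, linv β (L i j)) ≠ 0 := by
    by_contra hcon
    push Not at hcon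
    have hprod : (∏ i, ∏ j, linv β (L i j)) * ∏ i, ∏ j, loc β (H n 0 (L i j)) = 1 := by
      rw [← Finset.prod_mul_distrib]
      refine Finset.prod_eq_one fun i _ => ?_
      rw [← Finset.prod_mul_distrib]
      refine Finset.prod_eq_one fun j _ => ?_
      rw [mul_comm]
      exact loc_mul_linv β (hL1 i j) (hβ i j)
    have h1 : loc β M = (loc β M * ∏ i, ∏ j, linv β (L i j)) *
        ∏ i, ∏ j, loc β (H n 0 (L i j)) := by
      rw [mul_assoc, hprod, mul_one]
    have h2 : loc β M = 0 := by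
      ext1 m
      rw [map_zero]
      rcases Nat.lt_or_ge D m with hm | hm
      · exact coeff_loc_eq_zero β M (lt_of_le_of_lt hMD hm)
      · rw [h1, PowerSeries.coeff_mul]
        refine Finset.sum_eq_zero fun q hq => ?_
        have h3 := Finset.HasAntidiagonal.mem_antidiagonal.1 hq
        rw [hcon q.1 (by omega), zero_mul]
    exact hM0 (loc_injective β (by rw [h2, map_zero]))
  obtain ⟨m, hm, hmne⟩ := hne
  have hdeg : (PowerSeries.coeff m (loc β M * ∏ i, ∏ j, linv β (L i j))).totalDegree ≤ 2 * D := by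
    rw [PowerSeries.coeff_mul]
    refine totalDegree_finsetSum_le fun q hq => ?_
    have h3 := Finset.HasAntidiagonal.mem_antidiagonal.1 hq
    refine (totalDegree_mul _ _).trans ?_
    have h4 := (totalDegree_coeff_loc β M q.1).trans hMD
    have h5 := totalDegree_coeff_linv_prod β L q.2
    omega
  obtain ⟨v, hv, hvne⟩ := Helper7.PD.hittingSet_hits hdeg (hrank m hm) hmne
  refine ⟨v, hv, ?_⟩
  have happ : (fun i => ((v i : ℕ) : ℂ)) = Fin.append (fun i => (v (Fin.castAdd n i) : ℂ))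
      (fun i => (v (Fin.natAdd n i) : ℂ)) := by
    funext i
    refine Fin.addCases (fun i => ?_) (fun i => ?_) i
    · rw [Fin.append_left]
    · rw [Fin.append_right]
  rw [happ] at hvne
  have hex : ∃ m', eval (Fin.append (fun i => (v (Fin.castAdd n i) : ℂ))
      (fun i => (v (Fin.natAdd n i) : ℂ))) (PowerSeries.coeff m' (loc β M)) ≠ 0 := by
    by_contra hcon
    push Not at hcon
    apply hvne
    rw [PowerSeries.coeff_mul, map_sum]
    refine Finset.sum_eq_zero fun q _ => ?_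
    rw [map_mul, hcon, zero_mul]
  obtain ⟨m', hm'⟩ := hex
  obtain ⟨z, hz, hzne⟩ := exists_scalar β _ _ hMD hm'
  refine ⟨z, hz, ?_⟩
  rw [hβd] at hzne
  exact hzne

end Pool.Agent.Helper5.BD
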