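import Mathlib
import Pool.Agent.Helper5.BD.Defs

/-!
# BD-03: Taylor polynomials, and the rank of polynomials of small degree

* `exists_taylor`: `F = ` the coefficient of `z ^ m` of
  `aeval (fun i => Polynomial.C (C (α i)) + Polynomial.X * Polynomial.C (X i)) f`; the total degree of the
  `m`-th coefficient is `≤ m` (induction on `f`: it holds for `C`, sums, and products with
  `C (C (α i)) + X * C (X i)`: the coefficient of `z ^ m` of a product `u * (C c + X * C (X i))` is
  `c u_m + X i * u_(m-1)`). Evaluation as in `eval_H`.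
* `rankLe_of_totalDegree`: a monomial of degree `≤ k` is a product of `k` elements of
  `{1, X 0, ..., X (n-1)}`, i.e. `aeval l F` with `l : Fin k → MvPolynomial (Fin n) ℂ` of degree `≤ 1` and
  `F = ∏ j, X j` of degree `≤ k`: `RankLe.few_affine` gives rank `≤ (k + 1) ^ k`; there are at most
  `(n + 1) ^ k` monomials of degree `≤ k` (map `w : Fin k → Option (Fin n)` onto them), and ranks add
  (`RankLe.sum`, `RankLe.mono`). Multiplying by a constant does not change the rank (put it into `A`).
-/

namespace Pool.Agent.Helper5.BD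

open MvPolynomial

/-- `f (α + z X)`, a polynomial in `z`. -/
private noncomputable def tay {n : ℕ} (α : Fin n → ℂ) :
    MvPolynomial (Fin n) ℂ →ₐ[ℂ] Polynomial (MvPolynomial (Fin n) ℂ) :=
  aeval fun i => Polynomial.C (C (α i)) + Polynomial.X * Polynomial.C (X i)

private theorem totalDegree_tay {n : ℕ} (α : Fin n → ℂ) (f : MvPolynomial (Fin n) ℂ) :
    ∀ m, ((tay α f).coeff m).totalDegree ≤ m := by
  induction f using MvPolynomial.induction_on with
  | C a =>
    intro m
    have h : tay α (C a) = Polynomial.C (C a) := by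
      rw [tay, MvPolynomial.aeval_C, Polynomial.algebraMap_apply, MvPolynomial.algebraMap_eq]
    rw [h, Polynomial.coeff_C]
    split_ifs with h0
    · rw [totalDegree_C]
      exact Nat.zero_le _
    · rw [totalDegree_zero]
      exact Nat.zero_le _
  | add p q hp hq =>
    intro m
    rw [map_add, Polynomial.coeff_add]
    exact (totalDegree_add _ _).trans (max_le (hp m) (hq m))
  | mul_X p i hp =>
    intro m
    have h : tay α (p * X i) = tay α p * Polynomial.C (C (α i)) +
        tay α p * Polynomial.X * Polynomial.C (X i) := by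
      rw [map_mul]
      have h1 : tay α (X i) = Polynomial.C (C (α i)) + Polynomial.X * Polynomial.C (X i) := by
        rw [tay, MvPolynomial.aeval_X]
      rw [h1]
      ring
    rw [h, Polynomial.coeff_add, Polynomial.coeff_mul_C, Polynomial.coeff_mul_C]
    refine (totalDegree_add _ _).trans (max_le ?_ ?_)
    · refine (totalDegree_mul _ _).trans ?_
      rw [totalDegree_C, add_zero]
      exact hp m
    · cases m with
      | zero =>
        rw [Polynomial.coeff_mul_X_zero, zero_mul, totalDegree_zero]
      | succ m =>
        rw [Polynomial.coeff_mul_X]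
        refine (totalDegree_mul _ _).trans ?_
        exact Nat.add_le_add (hp m) (by rw [totalDegree_X])

theorem exists_taylor {n : ℕ} (f : MvPolynomial (Fin n) ℂ) (α : Fin n → ℂ) (m : ℕ) :
    ∃ F : MvPolynomial (Fin n) ℂ, F.totalDegree ≤ m ∧
      ∀ x, eval x F = (line α x f).coeff m := by
  refine ⟨(tay α f).coeff m, totalDegree_tay α f m, fun x => ?_⟩
  have h : (Polynomial.mapRingHom (eval x)).comp
      (tay α : MvPolynomial (Fin n) ℂ →+* Polynomial (MvPolynomial (Fin n) ℂ)) =
      (line α x : MvPolynomial (Fin n) ℂ →+* Polynomial ℂ) := by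
    apply MvPolynomial.ringHom_ext
    · intro c
      simp [tay, line, MvPolynomial.algebraMap_eq, Polynomial.algebraMap_apply]
    · intro i
      rw [RingHom.comp_apply, RingHom.coe_coe, RingHom.coe_coe, tay, line, aeval_X, aeval_X,
        map_add, map_mul, Polynomial.coe_mapRingHom, Polynomial.map_C, Polynomial.map_C,
        Polynomial.map_X, eval_X, eval_C]
  have h1 := congrArg (fun φ => (φ f).coeff m) h
  simpa using h1

/-- `1` or a variable. -/
private noncomputable def fac {n : ℕ} (o : Option (Fin n)) : MvPolynomial (Fin n) ℂ :=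
  o.elim 1 X

private theorem exists_word {n : ℕ} (k : ℕ) : ∀ s : Fin n →₀ ℕ, (∑ i, s i ≤ k) →
    ∃ w : Fin k → Option (Fin n), ∏ j, fac (w j) = monomial s (1 : ℂ) := by
  induction k with
  | zero =>
    intro s hs
    have h0 : s = 0 := by
      ext i
      have := Finset.single_le_sum (f := fun i => s i) (fun _ _ => Nat.zero_le _)
        (Finset.mem_univ i)
      simp only [Finsupp.coe_zero, Pi.zero_apply]
      omega
    refine ⟨fun _ => none, ?_⟩
    rw [h0]
    simp
  | succ k ih =>
    intro s hs
    by_cases h0 : s = 0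
    · refine ⟨fun _ => none, ?_⟩
      rw [h0]
      simp [fac]
    · obtain ⟨i, hi⟩ : ∃ i, s i ≠ 0 := by
        by_contra hcon
        push Not at hcon
        exact h0 (Finsupp.ext hcon)
      have hle : Finsupp.single i 1 ≤ s := by
        rw [Finsupp.single_le_iff]
        omega
      obtain ⟨t, rfl⟩ := exists_add_of_le hle
      have hsum : ∑ j, ((Finsupp.single i 1 + t : Fin n →₀ ℕ) j) = 1 + ∑ j, t j := by
        simp only [Finsupp.add_apply, Finset.sum_add_distrib]
        congr 1
        rw [Finset.sum_eq_single i]
        · simp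
        · intro b _ hb
          rw [Finsupp.single_eq_of_ne hb]
        · intro hh
          exact absurd (Finset.mem_univ i) hh
      rw [hsum] at hs
      obtain ⟨w, hw⟩ := ih t (by omega)
      refine ⟨Fin.cons (some i) w, ?_⟩
      rw [Fin.prod_univ_succ]
      simp only [Fin.cons_zero, Fin.cons_succ]
      rw [hw]
      change X i * monomial t (1 : ℂ) = _
      rw [X, monomial_mul, one_mul]

theorem rankLe_of_totalDegree {n k : ℕ} {F : MvPolynomial (Fin n) ℂ} (h : F.totalDegree ≤ k) :
    Helper7.PD.RankLe ((n + 1) ^ k * (k + 1) ^ k) F := by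
  classical
  have h1 : ∀ s : Fin n →₀ ℕ, ∃ w : Fin k → Option (Fin n), s ∈ F.support →
      ∏ j, fac (w j) = monomial s (1 : ℂ) := by
    intro s
    by_cases hs : s ∈ F.support
    · have h3 := le_totalDegree hs
      rw [Finsupp.sum_fintype _ _ (fun _ => rfl)] at h3
      obtain ⟨w, hw⟩ := exists_word k s (h3.trans h)
      exact ⟨w, fun _ => hw⟩
    · exact ⟨fun _ => none, fun h => absurd h hs⟩
  choose w hw using h1
  set c : (Fin k → Option (Fin n)) → ℂ := fun v => ∑ s ∈ F.support with w s = v, coeff s F with hc
  have hF : F = ∑ v, C (c v) * ∏ j, fac (v j) := by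
    have e1 : ∀ v, C (c v) * ∏ j, fac (v j) =
        ∑ s ∈ F.support with w s = v, monomial s (coeff s F) := by
      intro v
      rw [hc]
      simp only [map_sum]
      rw [Finset.sum_mul]
      refine Finset.sum_congr rfl fun s hs => ?_
      rw [Finset.mem_filter] at hs
      rw [← hs.2, hw s hs.1, C_mul_monomial, mul_one]
    rw [Finset.sum_congr rfl fun v _ => e1 v, Finset.sum_fiberwise]
    exact F.as_sum
  have hterm : ∀ v : Fin k → Option (Fin n),
      Helper7.PD.RankLe ((k + 1) ^ k) (C (c v) * ∏ j, fac (v j)) := by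
    intro v
    have e2 : C (c v) * ∏ j, fac (v j) =
        aeval (fun j => fac (v j)) (C (c v) * ∏ j : Fin k, (X j : MvPolynomial (Fin k) ℂ)) := by
      rw [map_mul, map_prod, aeval_C, algebraMap_eq]
      simp only [aeval_X]
    rw [e2]
    refine Helper7.PD.RankLe.few_affine _ (fun j => ?_) _ ?_
    · rcases hv : v j with _ | i
      · change (1 : MvPolynomial (Fin n) ℂ).totalDegree ≤ 1
        rw [totalDegree_one]
        exact Nat.zero_le _
      · change (X i : MvPolynomial (Fin n) ℂ).totalDegree ≤ 1
        rw [totalDegree_X]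
    · refine (totalDegree_mul _ _).trans ?_
      rw [totalDegree_C, zero_add]
      refine (totalDegree_finsetProd _ _).trans ?_
      simp
  have hcard : Fintype.card (Fin k → Option (Fin n)) = (n + 1) ^ k := by
    simp
  let e : (Fin k → Option (Fin n)) ≃ Fin ((n + 1) ^ k) := Fintype.equivFinOfCardEq hcard
  have hsum := Helper7.PD.RankLe.sum (fun a => C (c (e.symm a)) * ∏ j, fac (e.symm a j))
    (fun _ => (k + 1) ^ k) (fun a => hterm (e.symm a))
  rw [Equiv.sum_comp e.symm (fun v => C (c v) * ∏ j, fac (v j)), ← hF] at hsum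
  simpa using hsum

end Pool.Agent.Helper5.BD
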