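import Mathlib
import Pool.Agent.Helper5.BD.Defs
import Pool.Agent.Helper5.BD.Taylor

/-!
# BD-02: order of vanishing at an ordinary point

Suppose `(line α x f).coeff m = 0` for all `m < a` and all `x`. For `x` put `q = line α x f : ℂ[z]`
(`q (z) = f (α + z x)`). There is a least `m₀` such that `q.coeff m₀ ≠ 0` for some `x`
(`f ≠ 0`, `f (α + x) = ∑ m, (line α x f).coeff m`); `m₀ ≥ a`. The functions
`x ↦ eval (Fin.append α x) (M a)` and `x ↦ (line α x f).coeff m₀` are nonzero polynomials in `x`
(the first: substitute `C (α i)` and `X i`; the second: `exists_taylor` of `BD.Taylor`, you may import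
that file), so some `x` makes the product nonzero. For this `x`, evaluating the identity `hM` at
`(α + z x, x)`: `∑ b, P b * hasseDeriv b q = 0` in `ℂ[z]` with
`P b = aeval (Fin.append (fun i => C (α i) + X * C (x i)) (fun i => C (x i))) (M b)`, because
`H n b f` at `(α + z x, x)` is the coefficient of `w ^ b` of `f (α + (z + w) x) = q (z + w)`, i.e.
`Polynomial.hasseDeriv b q` (`Polynomial.taylor_coeff`; it is enough to check it at every `z : ℂ`:
`eval_H`, `(line (α + z • x) x f) = (line α x f).comp (X + C z)`, `Polynomial.taylor_coeff`).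
Compare the coefficients of `z ^ (m₀ - a)`: `hasseDeriv b q` has coefficients `0` below `m₀ - b`, so for
`b < a` nothing contributes, for `b > a` `M b = 0`, and `b = a` contributes
`(P a).coeff 0 * (m₀.choose a) * q.coeff m₀ ≠ 0`. Contradiction.
-/

namespace Pool.Agent.Helper5.BD

open MvPolynomial

private theorem eval_line {n : ℕ} (α x : Fin n → ℂ) (f : MvPolynomial (Fin n) ℂ) (z : ℂ) :
    (line α x f).eval z = eval (fun i => α i + z * x i) f := by
  have h : (Polynomial.evalRingHom z).comp (line α x : MvPolynomial (Fin n) ℂ →+* Polynomial ℂ) =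
      (eval (fun i => α i + z * x i) : MvPolynomial (Fin n) ℂ →+* ℂ) := by
    apply MvPolynomial.ringHom_ext
    · intro c
      simp [line]
    · intro i
      simp [line]
      ring
  have h1 := congrArg (fun φ => φ f) h
  simpa using h1

private theorem line_shift {n : ℕ} (α x : Fin n → ℂ) (f : MvPolynomial (Fin n) ℂ) (z : ℂ) :
    line (fun i => α i + z * x i) x f = Polynomial.taylor z (line α x f) := by
  apply Polynomial.funext
  intro w
  rw [Polynomial.taylor_eval, eval_line, eval_line]
  congr 2
  funext i
  ring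

/-- `M` along the line `(α + z x, x)`. -/
private noncomputable def along {n : ℕ} (α x : Fin n → ℂ) (M : MvPolynomial (Fin (n + n)) ℂ) :
    Polynomial ℂ :=
  aeval (Fin.append (fun i => Polynomial.C (α i) + Polynomial.X * Polynomial.C (x i))
    (fun i => Polynomial.C (x i))) M

private theorem eval_along {n : ℕ} (α x : Fin n → ℂ) (M : MvPolynomial (Fin (n + n)) ℂ) (z : ℂ) :
    (along α x M).eval z = eval (Fin.append (fun i => α i + z * x i) x) M := by
  have h : (Polynomial.evalRingHom z).comp
      ((aeval (Fin.append (fun i => Polynomial.C (α i) + Polynomial.X * Polynomial.C (x i))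
        (fun i => Polynomial.C (x i))) : MvPolynomial (Fin (n + n)) ℂ →ₐ[ℂ] Polynomial ℂ) :
        MvPolynomial (Fin (n + n)) ℂ →+* Polynomial ℂ) =
      (eval (Fin.append (fun i => α i + z * x i) x) : MvPolynomial (Fin (n + n)) ℂ →+* ℂ) := by
    apply MvPolynomial.ringHom_ext
    · intro c
      simp
    · intro i
      rw [RingHom.comp_apply, RingHom.coe_coe, aeval_X, eval_X]
      refine Fin.addCases (fun j => ?_) (fun j => ?_) i
      · rw [Fin.append_left, Fin.append_left]
        simp
        ring
      · rw [Fin.append_right, Fin.append_right]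
        simp
  have h1 := congrArg (fun φ => φ M) h
  simpa [along] using h1

/-- The polynomial `x ↦ M (α, x)`. -/
private theorem exists_dir {n : ℕ} (α : Fin n → ℂ) (M : MvPolynomial (Fin (n + n)) ℂ) :
    ∃ Q : MvPolynomial (Fin n) ℂ, ∀ x, eval x Q = eval (Fin.append α x) M := by
  refine ⟨aeval (Fin.append (fun i => C (α i)) X) M, fun x => ?_⟩
  have h : (eval x).comp
      ((aeval (Fin.append (fun i => C (α i)) X) :
        MvPolynomial (Fin (n + n)) ℂ →ₐ[ℂ] MvPolynomial (Fin n) ℂ) :
        MvPolynomial (Fin (n + n)) ℂ →+* MvPolynomial (Fin n) ℂ) =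
      (eval (Fin.append α x) : MvPolynomial (Fin (n + n)) ℂ →+* ℂ) := by
    apply MvPolynomial.ringHom_ext
    · intro c
      simp
    · intro i
      rw [RingHom.comp_apply, RingHom.coe_coe, aeval_X, eval_X]
      refine Fin.addCases (fun j => ?_) (fun j => ?_) i
      · rw [Fin.append_left, Fin.append_left, eval_C]
      · rw [Fin.append_right, Fin.append_right, eval_X]
  have h1 := congrArg (fun φ => φ M) h
  simpa using h1

private theorem exists_coeff_ne {n : ℕ} {f : MvPolynomial (Fin n) ℂ} (hf : f ≠ 0)
    (α : Fin n → ℂ) : ∃ m x, (line α x f).coeff m ≠ 0 := by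
  obtain ⟨v, hv⟩ : ∃ v, eval v f ≠ 0 := by
    by_contra hcon
    push Not at hcon
    exact hf (MvPolynomial.funext fun v => by rw [hcon v, map_zero])
  by_contra hcon
  push Not at hcon
  apply hv
  have h0 : line α (fun i => v i - α i) f = 0 := by
    ext m
    rw [hcon m, Polynomial.coeff_zero]
  have h1 := eval_line α (fun i => v i - α i) f 1
  rw [h0, Polynomial.eval_zero] at h1
  rw [h1]
  congr 2
  funext i
  ring

theorem order {n r : ℕ} (M : Fin (r + 1) → MvPolynomial (Fin (n + n)) ℂ)
    {f : MvPolynomial (Fin n) ℂ} (hf : f ≠ 0) (hM : ∑ a, M a * H n a f = 0) (a : Fin (r + 1))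
    (htop : ∀ b, a < b → M b = 0) (α x₀ : Fin n → ℂ) (hα : eval (Fin.append α x₀) (M a) ≠ 0) :
    ∃ m < (a : ℕ), ∃ x, (line α x f).coeff m ≠ 0 := by
  classical
  by_contra hcon
  push Not at hcon
  have hex : ∃ m, ∃ x, (line α x f).coeff m ≠ 0 := exists_coeff_ne hf α
  obtain ⟨m₀, hm₀⟩ : ∃ m₀, m₀ = Nat.find hex := ⟨_, rfl⟩
  have hspec : ∃ x, (line α x f).coeff m₀ ≠ 0 := by
    rw [hm₀]
    exact Nat.find_spec hex
  have hmin : ∀ m < m₀, ∀ x, (line α x f).coeff m = 0 := by
    intro m hm x
    rw [hm₀] at hm
    have := Nat.find_min hex hm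
    push Not at this
    exact this x
  have ham : (a : ℕ) ≤ m₀ := by
    by_contra h
    obtain ⟨x, hx⟩ := hspec
    exact hx (hcon m₀ (not_le.mp h) x)
  obtain ⟨F, -, hF⟩ := exists_taylor f α m₀
  obtain ⟨Q, hQ⟩ := exists_dir α (M a)
  have hF0 : F ≠ 0 := by
    rintro rfl
    obtain ⟨x, hx⟩ := hspec
    exact hx (by rw [← hF x, map_zero])
  have hQ0 : Q ≠ 0 := by
    rintro rfl
    exact hα (by rw [← hQ x₀, map_zero])
  obtain ⟨x, hx⟩ : ∃ x, eval x (Q * F) ≠ 0 := by
    by_contra hcon2
    push Not at hcon2
    exact mul_ne_zero hQ0 hF0 (MvPolynomial.funext fun v => by rw [hcon2 v, map_zero])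
  rw [map_mul, hQ x, hF x] at hx
  obtain ⟨hx1, hx2⟩ := mul_ne_zero_iff.mp hx
  have hid : ∑ b, along α x (M b) * Polynomial.hasseDeriv b (line α x f) = 0 := by
    apply Polynomial.funext
    intro z
    rw [Polynomial.eval_zero, Polynomial.eval_finsetSum]
    have h1 := congrArg (eval (Fin.append (fun i => α i + z * x i) x)) hM
    rw [map_sum, map_zero] at h1
    rw [← h1]
    refine Finset.sum_congr rfl fun b _ => ?_
    rw [Polynomial.eval_mul, map_mul, eval_along, eval_H, line_shift, Polynomial.taylor_coeff]
  have hcoef := congrArg (fun p : Polynomial ℂ => p.coeff (m₀ - a)) hid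
  simp only [Polynomial.finsetSum_coeff, Polynomial.coeff_zero] at hcoef
  rw [Finset.sum_eq_single a] at hcoef
  · rw [Polynomial.coeff_mul, Finset.sum_eq_single (0, m₀ - (a : ℕ))] at hcoef
    · rw [Polynomial.hasseDeriv_coeff, Nat.sub_add_cancel ham, Polynomial.coeff_zero_eq_eval_zero,
        eval_along] at hcoef
      have h2 : (fun i => α i + 0 * x i) = α := by
        funext i
        ring
      rw [h2] at hcoef
      rcases mul_eq_zero.mp hcoef with h3 | h3
      · exact hx1 h3
      · rcases mul_eq_zero.mp h3 with h4 | h4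
        · have := Nat.choose_pos ham
          have h5 : ((m₀.choose a : ℕ) : ℂ) ≠ 0 := by exact_mod_cast this.ne'
          exact h5 h4
        · exact hx2 h4
    · intro p hp hpne
      rw [Finset.HasAntidiagonal.mem_antidiagonal] at hp
      have hlt : p.2 < m₀ - a := by
        rcases Nat.lt_or_ge p.2 (m₀ - a) with h | h
        · exact h
        · exfalso
          apply hpne
          ext
          · simp only
            omega
          · simp only
            omega
      rw [Polynomial.hasseDeriv_coeff, hmin (p.2 + a) (by omega) x, mul_zero, mul_zero]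
    · intro h
      exfalso
      apply h
      rw [Finset.HasAntidiagonal.mem_antidiagonal]
      simp
  · intro b _ hb
    rcases lt_or_gt_of_ne hb with h | h
    · rw [Polynomial.coeff_mul]
      refine Finset.sum_eq_zero fun p hp => ?_
      rw [Finset.HasAntidiagonal.mem_antidiagonal] at hp
      have h' : (b : ℕ) < a := h
      rw [Polynomial.hasseDeriv_coeff, hmin (p.2 + b) (by omega) x, mul_zero, mul_zero]
    · rw [htop b h, along, map_zero, zero_mul, Polynomial.coeff_zero]
  · intro h
    exact absurd (Finset.mem_univ a) h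

end Pool.Agent.Helper5.BD
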