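import Mathlib
import Pool.Agent.Helper5.BD.Defs

/-!
# BD-01: the operator of a maximal nonvanishing Wronskian

Pure multilinear algebra. For `I : Fin r → Fin k` put `W I = det (H b (T (I i)))_{b, i < r}`.
* `H 0` is injective: `H n 0 u = rename (Fin.castAdd n) u` (or: evaluate with `eval_H`,
  `(line y x u).coeff 0 = eval y u`), so for `T i ≠ 0` and `r = 1` there is an `I` with `W I ≠ 0`
  (`r = 0` also works: the empty determinant is `1`; it is enough to start with `r = 0`).
* `W I ≠ 0` forces `I` to be injective (two equal columns: `Matrix.det_zero_of_column_eq`), so `r ≤ k`.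
  Take the largest `r ≤ k` with some `W I ≠ 0` (`Nat.findGreatest` or `Nat.find`).
* Laplace expansion along the last column (`Matrix.det_succ_column _ (Fin.last r)`,
  `Fin.succAbove_last`): `∑ a, minor (T ∘ I) a * H a u` is the determinant of the `(r+1) × (r+1)` matrix
  with entries `H b (Fin.snoc (T ∘ I) u i)`. For `u = T j` it is `W (Fin.snoc I j)`, which is `0` by
  maximality (if `r + 1 ≤ k`) or because `Fin.snoc I j : Fin (k+1) → Fin k` is not injective.
* `minor (T ∘ I) (Fin.last r) = (-1) ^ (r + r) * W I` as `(Fin.last r).succAbove b = b.castSucc`.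
-/

namespace Pool.Agent.Helper5.BD

open MvPolynomial

theorem operator {n k : ℕ} (T : Fin k → MvPolynomial (Fin n) ℂ) :
    ∃ r ≤ k, ∃ I : Fin r → Fin k, minor (fun i => T (I i)) (Fin.last r) ≠ 0 ∧
      ∀ j, ∑ a, minor (fun i => T (I i)) a * H n a (T j) = 0 := by
  classical
  let W : (r : ℕ) → (Fin r → Fin k) → MvPolynomial (Fin (n + n)) ℂ := fun r I =>
    Matrix.det (Matrix.of fun b i : Fin r => H n (b : ℕ) (T (I i)))
  have hW : ∀ r (I : Fin r → Fin k),
      W r I = Matrix.det (Matrix.of fun b i : Fin r => H n (b : ℕ) (T (I i))) := fun r I => rfl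
  let P : ℕ → Prop := fun r => ∃ I : Fin r → Fin k, W r I ≠ 0
  have hP0 : P 0 := ⟨fun i => i.elim0, by rw [hW, Matrix.det_isEmpty]; exact one_ne_zero⟩
  have hr : P (Nat.findGreatest P k) := Nat.findGreatest_spec (Nat.zero_le k) hP0
  have hle : Nat.findGreatest P k ≤ k := Nat.findGreatest_le k
  have hmax : ∀ m, Nat.findGreatest P k < m → m ≤ k → ¬ P m := fun m h1 h2 =>
    Nat.findGreatest_is_greatest h1 h2
  generalize Nat.findGreatest P k = r at hr hle hmax
  obtain ⟨I, hI⟩ := hr
  refine ⟨r, hle, I, ?_, ?_⟩
  · have h1 : minor (fun i => T (I i)) (Fin.last r) = W r I := by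
      rw [minor, hW]
      have h2 : ((-1 : MvPolynomial (Fin (n + n)) ℂ)) ^ (((Fin.last r : Fin (r + 1)) : ℕ) + r) = 1 := by
        rw [Fin.val_last]
        exact Even.neg_one_pow ⟨r, rfl⟩
      rw [h2, one_mul]
      congr 1
      ext b i : 2
      simp only [Matrix.of_apply, Fin.succAbove_last, Fin.val_castSucc]
    rw [h1]
    exact hI
  · intro j
    have h1 : ∑ a, minor (fun i => T (I i)) a * H n a (T j) =
        W (r + 1) (Fin.snoc (α := fun _ => Fin k) I j) := by
      rw [hW, Matrix.det_succ_column _ (Fin.last r)]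
      refine Finset.sum_congr rfl fun a _ => ?_
      rw [minor]
      have h3 : Matrix.submatrix (Matrix.of fun b i : Fin (r + 1) =>
          H n (b : ℕ) (T ((Fin.snoc (α := fun _ => Fin k) I j : Fin (r + 1) → Fin k) i)))
          a.succAbove (Fin.last r).succAbove =
          Matrix.of fun b i : Fin r => H n (a.succAbove b : ℕ) (T (I i)) := by
        ext b i : 2
        simp only [Matrix.submatrix_apply, Matrix.of_apply, Fin.succAbove_last, Fin.snoc_castSucc]
      rw [h3]
      simp only [Matrix.of_apply, Fin.snoc_last, Fin.val_last]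
      ring
    rw [h1]
    by_contra hne
    by_cases hk : r + 1 ≤ k
    · exact hmax (r + 1) (Nat.lt_succ_self r) hk ⟨_, hne⟩
    · have hni : ¬ Function.Injective (Fin.snoc (α := fun _ => Fin k) I j : Fin (r + 1) → Fin k) := by
        intro hinj
        have := Fintype.card_le_of_injective _ hinj
        simp only [Fintype.card_fin] at this
        exact hk this
      rw [Function.Injective] at hni
      push Not at hni
      obtain ⟨i, i', h2, h3⟩ := hni
      apply hne
      rw [hW]
      refine Matrix.det_zero_of_column_eq h3 fun b => ?_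
      simp only [Matrix.of_apply]
      rw [h2]

end Pool.Agent.Helper5.BD
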