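import Mathlib
import Pool.Agent.Helper5.BD.Alpha
import Pool.Agent.Helper5.BD.Wronsk
import Pool.Agent.Helper5.BD.Order
import Pool.Agent.Helper5.BD.Taylor

/-!
# The hitting property (helper5)
-/

namespace Pool.Agent.Helper5.BD

open MvPolynomial Filter Topology

/-- The degree of a limit. -/
private theorem degree_of_tendsto {n q : ℕ} (F : Ultrafilter ℕ) {u : ℕ → MvPolynomial (Fin n) ℂ}
    {v : MvPolynomial (Fin n) ℂ} (hu : ∀ t, (u t).totalDegree ≤ q) (h : PTendsto F u v) :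
    v.totalDegree ≤ q := by
  by_contra hcon
  push Not at hcon
  have h1 : ∃ m ∈ v.support, q < m.sum fun _ e => e := by
    by_contra hc
    push Not at hc
    exact absurd (Finset.sup_le hc : v.totalDegree ≤ q) (not_le.2 hcon)
  obtain ⟨m, hm, hq⟩ := h1
  have h2 : ∀ t, coeff m (u t) = 0 := fun t =>
    coeff_eq_zero_of_totalDegree_lt (lt_of_le_of_lt (hu t) hq)
  have h3 := h m
  simp only [h2] at h3
  exact (mem_support_iff.1 hm) (tendsto_nhds_unique h3 tendsto_const_nhds)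

/-- Evaluation of `H b`. -/
private noncomputable def evH {n : ℕ} (b : ℕ) (v : Fin (n + n) → ℂ) :
    MvPolynomial (Fin n) ℂ →ₗ[ℂ] ℂ where
  toFun u := eval v (H n b u)
  map_add' u w := by rw [H_add, map_add]
  map_smul' c u := by
    rw [MvPolynomial.smul_eq_C_mul, H_C_mul, map_mul, eval_C, RingHom.id_apply, smul_eq_mul]

private theorem ne_zero_of_minor {n r : ℕ} {U : Fin r → MvPolynomial (Fin n) ℂ}
    (h : minor U (Fin.last r) ≠ 0) (i : Fin r) : U i ≠ 0 := by
  intro hi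
  apply h
  rw [minor, Matrix.det_eq_zero_of_column_eq_zero i, mul_zero]
  intro b
  rw [Matrix.of_apply, hi, H_zero]

theorem hset_hits {n k s p ρ : ℕ} {f : MvPolynomial (Fin n) ℂ} (hf : Border k s p ρ f)
    (h0 : f ≠ 0) : ∃ a ∈ hset n k s p ρ, eval (fun i => ((a i : ℕ) : ℂ)) f ≠ 0 := by
  classical
  obtain ⟨T, hT, hlim⟩ := hf
  obtain ⟨F, hFle⟩ : ∃ F : Ultrafilter ℕ, (F : Filter ℕ) ≤ atTop := by
    refine ⟨Filter.hyperfilter ℕ, ?_⟩
    rw [← Nat.cofinite_eq_atTop]
    exact Filter.hyperfilter_le_cofinite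
  have hTdeg : ∀ t i, (T t i).totalDegree ≤ p + s := fun t i => (hT t i).totalDegree_le
  have hSdeg : ∀ t, (∑ i, T t i).totalDegree ≤ p + s := fun t =>
    totalDegree_finsetSum_le fun i _ => hTdeg t i
  -- the operator, with constant shape along the ultrafilter
  have hop : ∀ᶠ t in (F : Filter ℕ), ∃ q : (Σ r : Fin (k + 1), (Fin r → Fin k)),
      minor (fun i => T t (q.2 i)) (Fin.last q.1) ≠ 0 ∧
        ∀ j, ∑ a, minor (fun i => T t (q.2 i)) a * H n a (T t j) = 0 :=
    Eventually.of_forall fun t => by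
      obtain ⟨r, hr, I, h1, h2⟩ := operator (T t)
      exact ⟨⟨⟨r, Nat.lt_succ_of_le hr⟩, I⟩, h1, h2⟩
  obtain ⟨⟨⟨r, hr⟩, I⟩, hI⟩ := exists_const F _ hop
  have hrk : r ≤ k := Nat.le_of_lt_succ hr
  simp only at hI
  obtain ⟨t₀, ht₀⟩ := hI.exists
  obtain ⟨σ, hσ, hσe⟩ : ∃ σ : ℕ → ℕ, (∀ t, minor (fun i => T (σ t) (I i)) (Fin.last r) ≠ 0 ∧
      ∀ j, ∑ a, minor (fun i => T (σ t) (I i)) a * H n a (T (σ t) j) = 0) ∧
      ∀ᶠ t in (F : Filter ℕ), σ t = t := by
    refine ⟨fun t => if minor (fun i => T t (I i)) (Fin.last r) ≠ 0 ∧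
      (∀ j, ∑ a, minor (fun i => T t (I i)) a * H n a (T t j) = 0) then t else t₀, ?_, ?_⟩
    · intro t
      by_cases h : minor (fun i => T t (I i)) (Fin.last r) ≠ 0 ∧
        (∀ j, ∑ a, minor (fun i => T t (I i)) a * H n a (T t j) = 0)
      · simp only [if_pos h]
        exact h
      · simp only [if_neg h]
        exact ht₀
    · filter_upwards [hI] with t ht
      exact if_pos ht
  have hPσ : PTendsto F (fun t => ∑ i, T (σ t) i) f := by
    intro m
    refine ((hlim m).mono_left hFle).congr' ?_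
    filter_upwards [hσe] with t ht
    rw [ht]
  have hfdeg : f.totalDegree ≤ p + s := degree_of_tendsto F (fun t => hSdeg (σ t)) hPσ
  -- normalisation
  obtain ⟨U, hU⟩ : ∃ U : ℕ → Fin r → MvPolynomial (Fin n) ℂ, U = fun t i => T (σ t) (I i) :=
    ⟨_, rfl⟩
  have hU1 : ∀ t, minor (U t) (Fin.last r) ≠ 0 := fun t => by
    rw [hU]
    exact (hσ t).1
  have hU2 : ∀ t j, ∑ a, minor (U t) a * H n a (T (σ t) j) = 0 := fun t j => by
    rw [hU]
    exact (hσ t).2 j
  have hUT : ∀ t i, IsTerm s p ρ (U t i) := fun t i => by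
    rw [hU]
    exact hT _ _
  have hU0 : ∀ t i, U t i ≠ 0 := fun t i => ne_zero_of_minor (hU1 t) i
  have hUdeg : ∀ t a, (minor (U t) a).totalDegree ≤ k * (p + s) := fun t a =>
    (totalDegree_minor (U t) (fun i => (hUT t i).totalDegree_le) a).trans
      (Nat.mul_le_mul_right _ hrk)
  have hnor := fun t => exists_normalize (fun a => minor (U t) a) ⟨_, hU1 t⟩
  choose c hc0 hcb hcn using hnor
  have hcdeg : ∀ t a, (c t • minor (U t) a).totalDegree ≤ k * (p + s) := fun t a =>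
    (totalDegree_smul_le _ _).trans (hUdeg t a)
  have hML := fun a => exists_lim F (fun t => c t • minor (U t) a)
    (Eventually.of_forall fun t => hcdeg t a) (Eventually.of_forall fun t m => hcb t a m)
  choose M hMD hMt using hML
  obtain ⟨a₁, ha₁⟩ := exists_ne_zero (D := k * (p + s)) F (fun t a => c t • minor (U t) a) M
    (Eventually.of_forall fun t a => hcdeg t a) (Eventually.of_forall fun t => hcn t) hMt
  -- the top coefficient
  obtain ⟨a, haM, htop⟩ : ∃ a, M a ≠ 0 ∧ ∀ b, a < b → M b = 0 := by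
    have hne : (Finset.univ.filter fun a => M a ≠ 0).Nonempty :=
      ⟨a₁, Finset.mem_filter.2 ⟨Finset.mem_univ _, ha₁⟩⟩
    refine ⟨(Finset.univ.filter fun a => M a ≠ 0).max' hne,
      (Finset.mem_filter.1 (Finset.max'_mem _ hne)).2, fun b hb => ?_⟩
    by_contra hb0
    exact absurd (Finset.le_max' _ b (Finset.mem_filter.2 ⟨Finset.mem_univ _, hb0⟩)) (not_le.2 hb)
  -- the relation for the limit
  have hrel : ∑ a, M a * H n a f = 0 := by
    apply MvPolynomial.funext
    intro v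
    rw [map_zero, map_sum]
    have h1 : Tendsto (fun t => ∑ a : Fin (r + 1), eval v (c t • minor (U t) a) *
        eval v (H n a (∑ j, T (σ t) j))) F
        (𝓝 (∑ a : Fin (r + 1), eval v (M a * H n a f))) := by
      refine tendsto_finsetSum _ fun b _ => ?_
      rw [map_mul]
      refine Tendsto.mul ?_ ?_
      · exact tendsto_linear F (Eventually.of_forall fun t => hcdeg t b) (hMD b) (hMt b)
          (MvPolynomial.aeval v : MvPolynomial (Fin (n + n)) ℂ →ₐ[ℂ] ℂ).toLinearMap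
      · exact tendsto_linear F (Eventually.of_forall fun t => hSdeg (σ t)) hfdeg hPσ (evH b v)
    have h2 : ∀ t, ∑ a : Fin (r + 1), eval v (c t • minor (U t) a) *
        eval v (H n a (∑ j, T (σ t) j)) = 0 := by
      intro t
      have h3 : ∑ a, (c t • minor (U t) a) * H n a (∑ j, T (σ t) j) = 0 := by
        calc ∑ a, (c t • minor (U t) a) * H n a (∑ j, T (σ t) j)
            = c t • ∑ j, ∑ a, minor (U t) a * H n a (T (σ t) j) := by
              rw [Finset.sum_comm, Finset.smul_sum]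
              refine Finset.sum_congr rfl fun b _ => ?_
              rw [smul_mul_assoc, H_sum, Finset.mul_sum]
          _ = 0 := by
              rw [Finset.sum_eq_zero fun j _ => hU2 t j, smul_zero]
      have h4 := congrArg (eval v) h3
      rw [map_sum, map_zero] at h4
      rw [← h4]
      refine Finset.sum_congr rfl fun b _ => ?_
      rw [map_mul]
    simp only [h2] at h1
    exact (tendsto_nhds_unique h1 tendsto_const_nhds)
  -- the ordinary point
  obtain ⟨w, hw, v, hv, z, hz, hne⟩ := alpha F hrk U hUT hU0 c a (hMt a) (hMD a) haM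
  obtain ⟨m, hm, x, hx⟩ := order M h0 hrel a htop _ _ hne
  have hmk : m ≤ k := by
    have := a.2
    omega
  obtain ⟨Φ, hΦd, hΦe⟩ := exists_taylor f
    (fun i : Fin n => (w : ℂ) ^ ((i : ℕ) + 1) + z * (v (Fin.castAdd n i) : ℂ)) m
  have hΦ0 : Φ ≠ 0 := by
    intro h
    apply hx
    rw [← hΦe x, h, map_zero]
  obtain ⟨x₁, hx₁, hx₁ne⟩ := Helper7.PD.hittingSet_hits (hΦd.trans hmk)
    (rankLe_of_totalDegree (hΦd.trans hmk)) hΦ0
  rw [hΦe] at hx₁ne
  obtain ⟨z₀, hz₀, hfin⟩ := exists_scalar_line _ _ hfdeg hx₁ne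
  refine ⟨fun i : Fin n => w ^ ((i : ℕ) + 1) + z * v (Fin.castAdd n i) + z₀ * x₁ i, ?_, ?_⟩
  · rw [hset, Finset.mem_image]
    refine ⟨(w, z, v, z₀, x₁), ?_, rfl⟩
    simp only [Finset.mem_product, Finset.mem_range]
    exact ⟨Nat.lt_succ_of_le hw, Nat.lt_succ_of_le hz, hv, Nat.lt_succ_of_le hz₀, hx₁⟩
  · have h5 : (fun i : Fin n => (((w ^ ((i : ℕ) + 1) + z * v (Fin.castAdd n i) + z₀ * x₁ i : ℕ)) : ℂ)) =
        fun i : Fin n => ((w : ℂ) ^ ((i : ℕ) + 1) + z * (v (Fin.castAdd n i) : ℂ)) + z₀ * (x₁ i : ℂ) := by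
      funext i
      push_cast
      ring
    rw [h5]
    exact hfin

end Pool.Agent.Helper5.BD
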