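import Mathlib
import Pool.Agent.Helper5.BD.Set

/-!
# BD-14: the size of the hitting set

With `N = n + k + s + p + ρ + 2` and `D = k * (p + s)`: `k s n + 1 ≤ N ^ 3`, `D + 1 ≤ N ^ 2`,
`k + D + 1 ≤ N ^ 2`, `2 ^ 12 ≤ N ^ 12`, `2 D (n + n) + 1 ≤ N ^ 5`,
`rkE ≤ N ^ (7 + 7 k)`, `rk ≤ N ^ (3 k + (7 + 7 k) k) = N ^ (10 k + 7 k ^ 2)`, `p + s + 1 ≤ N`,
`k n + 1 ≤ N ^ 2`, `(n + 1) ^ k (k + 1) ^ k ≤ N ^ (2 k)`; total exponent
`37 + 156 k + 91 k ^ 2 ≤ 91 (k + 1) ^ 2` (`Helper7.PD.hittingSet_card`).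
For the coordinates use `Helper7.PD.hittingSet_bound` and `N ^ x ≤ 2 ^ (N x)`; the exponent `128` leaves a lot
of room.
-/

namespace Pool.Agent.Helper5.BD

theorem num_D {n k s p ρ : ℕ} : k + k * (p + s) + 1 ≤ (n + k + s + p + ρ + 2) ^ 2 := by
  nlinarith [Nat.zero_le (n * n), Nat.zero_le (ρ * ρ), Nat.zero_le ((p + s) * (p + s)),
    Nat.zero_le (k * k), Nat.zero_le (n * k), Nat.zero_le (n * s), Nat.zero_le (n * p),
    Nat.zero_le (n * ρ), Nat.zero_le (k * ρ), Nat.zero_le (s * ρ), Nat.zero_le (p * ρ),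
    Nat.zero_le (k * p), Nat.zero_le (k * s)]

theorem num_D' {n k s p ρ : ℕ} : k * (p + s) + 1 ≤ (n + k + s + p + ρ + 2) ^ 2 := by
  have := num_D (n := n) (k := k) (s := s) (p := p) (ρ := ρ)
  omega

/-- `m ≤ 2 ^ m ≤ N ^ m`. -/
theorem num_le_pow {N m : ℕ} (hN : 2 ≤ N) : m ≤ N ^ m :=
  (Nat.lt_two_pow_self).le.trans (Nat.pow_le_pow_left hN m)

theorem rkE_le {n k s p ρ : ℕ} :
    rkE k s ρ (k * (p + s)) ≤ (n + k + s + p + ρ + 2) ^ (7 + 7 * k) := by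
  have hD := num_D (n := n) (k := k) (s := s) (p := p) (ρ := ρ)
  have hD' := num_D' (n := n) (k := k) (s := s) (p := p) (ρ := ρ)
  obtain ⟨N, hN⟩ : ∃ N, N = n + k + s + p + ρ + 2 := ⟨_, rfl⟩
  obtain ⟨D, hDD⟩ : ∃ D, D = k * (p + s) := ⟨_, rfl⟩
  rw [← hN] at hD hD' ⊢
  rw [← hDD] at hD hD' ⊢
  have h1 : ρ + 1 ≤ N := by omega
  have h2 : k + 1 ≤ N := by omega
  have h3 : s + 1 ≤ N := by omega
  have hN1 : 1 ≤ N := by omega
  have h4 : (D + 1) * (s * (k + D + 1) ^ 2) + 1 ≤ N ^ 7 := by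
    calc (D + 1) * (s * (k + D + 1) ^ 2) + 1 ≤ N ^ 2 * (s * (N ^ 2) ^ 2) + N ^ 6 := by
          refine Nat.add_le_add ?_ (Nat.one_le_pow _ _ hN1)
          exact Nat.mul_le_mul hD' (Nat.mul_le_mul_left _ (Nat.pow_le_pow_left hD 2))
      _ = N ^ 6 * (s + 1) := by ring
      _ ≤ N ^ 6 * N := Nat.mul_le_mul_left _ h3
      _ = N ^ 7 := by ring
  rw [rkE]
  calc (ρ + 1) * (k + 1) ^ 2 * (D + 1) ^ 2 * ((D + 1) * (s * (k + D + 1) ^ 2) + 1) ^ k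
      ≤ N * N ^ 2 * (N ^ 2) ^ 2 * (N ^ 7) ^ k := by gcongr
    _ = N ^ (7 + 7 * k) := by
      rw [← pow_mul, ← pow_mul, pow_add]
      ring

theorem rk_le {n k s p ρ : ℕ} :
    rk k s ρ (k * (p + s)) ≤ (n + k + s + p + ρ + 2) ^ (10 * k + 7 * k ^ 2) := by
  have hE := rkE_le (n := n) (k := k) (s := s) (p := p) (ρ := ρ)
  have hD' := num_D' (n := n) (k := k) (s := s) (p := p) (ρ := ρ)
  obtain ⟨N, hN⟩ : ∃ N, N = n + k + s + p + ρ + 2 := ⟨_, rfl⟩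
  obtain ⟨D, hDD⟩ : ∃ D, D = k * (p + s) := ⟨_, rfl⟩
  rw [← hN] at hE hD' ⊢
  rw [← hDD] at hE hD' ⊢
  have h1 : k.factorial ≤ N ^ k :=
    (Nat.factorial_le_pow k).trans (Nat.pow_le_pow_left (by omega) k)
  rw [rk]
  calc k.factorial * ((D + 1) ^ k * rkE k s ρ D ^ k)
      ≤ N ^ k * ((N ^ 2) ^ k * (N ^ (7 + 7 * k)) ^ k) := by gcongr
    _ = N ^ (10 * k + 7 * k ^ 2) := by
      rw [← pow_mul, ← pow_mul, ← pow_add, ← pow_add]
      congr 1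
      ring

theorem num_r2 {n k s p ρ : ℕ} :
    (n + 1) ^ k * (k + 1) ^ k ≤ (n + k + s + p + ρ + 2) ^ (2 * k) := by
  obtain ⟨N, hN⟩ : ∃ N, N = n + k + s + p + ρ + 2 := ⟨_, rfl⟩
  rw [← hN]
  calc (n + 1) ^ k * (k + 1) ^ k ≤ N ^ k * N ^ k := by
        refine Nat.mul_le_mul (Nat.pow_le_pow_left (by omega) k) (Nat.pow_le_pow_left (by omega) k)
    _ = N ^ (2 * k) := by
      rw [← pow_add]
      congr 1
      ring

theorem num_ksn {n k s p ρ : ℕ} : k * s * n + 1 ≤ (n + k + s + p + ρ + 2) ^ 3 := by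
  obtain ⟨N, hN⟩ : ∃ N, N = n + k + s + p + ρ + 2 := ⟨_, rfl⟩
  rw [← hN]
  have hN1 : 1 ≤ N := by omega
  calc k * s * n + 1 ≤ N * N * n + N * N := by
        refine Nat.add_le_add ?_ (Nat.one_le_iff_ne_zero.2 (by positivity))
        exact Nat.mul_le_mul_right _ (Nat.mul_le_mul (by omega) (by omega))
    _ = N * N * (n + 1) := by ring
    _ ≤ N * N * N := Nat.mul_le_mul_left _ (by omega)
    _ = N ^ 3 := by ring

theorem num_kn {n k s p ρ : ℕ} : k * n + 1 ≤ (n + k + s + p + ρ + 2) ^ 2 := by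
  obtain ⟨N, hN⟩ : ∃ N, N = n + k + s + p + ρ + 2 := ⟨_, rfl⟩
  rw [← hN]
  calc k * n + 1 ≤ N * n + N := Nat.add_le_add (Nat.mul_le_mul_right _ (by omega)) (by omega)
    _ = N * (n + 1) := by ring
    _ ≤ N * N := Nat.mul_le_mul_left _ (by omega)
    _ = N ^ 2 := by ring

theorem num_Dn {n k s p ρ : ℕ} :
    2 * (k * (p + s)) * (n + n) + 1 ≤ (n + k + s + p + ρ + 2) ^ 5 := by
  have hD' := num_D' (n := n) (k := k) (s := s) (p := p) (ρ := ρ)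
  obtain ⟨N, hN⟩ : ∃ N, N = n + k + s + p + ρ + 2 := ⟨_, rfl⟩
  obtain ⟨D, hDD⟩ : ∃ D, D = k * (p + s) := ⟨_, rfl⟩
  rw [← hN] at hD' ⊢
  rw [← hDD] at hD' ⊢
  have hN2 : 2 ≤ N := by omega
  have h4 : 4 ≤ N ^ 2 := by nlinarith
  calc 2 * D * (n + n) + 1 = 4 * D * n + 1 := by ring
    _ ≤ N ^ 2 * N ^ 2 * n + N ^ 2 * N ^ 2 := by
      refine Nat.add_le_add ?_ (Nat.one_le_iff_ne_zero.2 (by positivity))
      exact Nat.mul_le_mul_right _ (Nat.mul_le_mul h4 (by omega))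
    _ = N ^ 4 * (n + 1) := by ring
    _ ≤ N ^ 4 * N := Nat.mul_le_mul_left _ (by omega)
    _ = N ^ 5 := by ring

theorem hset_card (n k s p ρ : ℕ) :
    (hset n k s p ρ).card ≤ (n + k + s + p + ρ + 2) ^ (91 * (k + 1) ^ 2) := by
  have hR := rk_le (n := n) (k := k) (s := s) (p := p) (ρ := ρ)
  have hD' := num_D' (n := n) (k := k) (s := s) (p := p) (ρ := ρ)
  have h1 := num_ksn (n := n) (k := k) (s := s) (p := p) (ρ := ρ)
  have h2 := num_Dn (n := n) (k := k) (s := s) (p := p) (ρ := ρ)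
  have h3 := num_kn (n := n) (k := k) (s := s) (p := p) (ρ := ρ)
  have h4 := num_r2 (n := n) (k := k) (s := s) (p := p) (ρ := ρ)
  have hc1 := Helper7.PD.hittingSet_card (n + n) (2 * (k * (p + s))) (rk k s ρ (k * (p + s)))
  have hc2 := Helper7.PD.hittingSet_card n k ((n + 1) ^ k * (k + 1) ^ k)
  have hcard : (hset n k s p ρ).card ≤ (k * s * n + 1) * ((k * (p + s) + 1) *
      ((Helper7.PD.hittingSet (n + n) (2 * (k * (p + s))) (rk k s ρ (k * (p + s)))).card *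
        ((p + s + 1) * (Helper7.PD.hittingSet n k ((n + 1) ^ k * (k + 1) ^ k)).card))) := by
    rw [hset]
    refine Finset.card_image_le.trans ?_
    rw [Finset.card_product, Finset.card_product, Finset.card_product, Finset.card_product,
      Finset.card_range, Finset.card_range, Finset.card_range]
  obtain ⟨N, hN⟩ : ∃ N, N = n + k + s + p + ρ + 2 := ⟨_, rfl⟩
  rw [← hN] at hR hD' h1 h2 h3 h4 ⊢
  have hN2 : 2 ≤ N := by omega
  have hN1 : 1 ≤ N := by omega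
  have h12 : 2 ^ 12 ≤ N ^ 12 := Nat.pow_le_pow_left hN2 12
  have hps : p + s + 1 ≤ N := by omega
  have hc1' : (Helper7.PD.hittingSet (n + n) (2 * (k * (p + s)))
      (rk k s ρ (k * (p + s)))).card ≤ N ^ 12 * N ^ 5 * (N ^ (10 * k + 7 * k ^ 2)) ^ 13 := by
    refine hc1.trans ?_
    exact Nat.mul_le_mul (Nat.mul_le_mul h12 h2) (Nat.pow_le_pow_left hR 13)
  have hc2' : (Helper7.PD.hittingSet n k ((n + 1) ^ k * (k + 1) ^ k)).card ≤
      N ^ 12 * N ^ 2 * (N ^ (2 * k)) ^ 13 := by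
    refine hc2.trans ?_
    exact Nat.mul_le_mul (Nat.mul_le_mul h12 h3) (Nat.pow_le_pow_left h4 13)
  refine hcard.trans ?_
  calc (k * s * n + 1) * ((k * (p + s) + 1) *
      ((Helper7.PD.hittingSet (n + n) (2 * (k * (p + s))) (rk k s ρ (k * (p + s)))).card *
        ((p + s + 1) * (Helper7.PD.hittingSet n k ((n + 1) ^ k * (k + 1) ^ k)).card)))
      ≤ N ^ 3 * (N ^ 2 * ((N ^ 12 * N ^ 5 * (N ^ (10 * k + 7 * k ^ 2)) ^ 13) *
        (N * (N ^ 12 * N ^ 2 * (N ^ (2 * k)) ^ 13)))) :=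
        Nat.mul_le_mul h1 (Nat.mul_le_mul hD' (Nat.mul_le_mul hc1' (Nat.mul_le_mul hps hc2')))
    _ = N ^ (37 + 156 * k + 91 * k ^ 2) := by
      rw [← pow_mul, ← pow_mul]
      have e : 37 + 156 * k + 91 * k ^ 2 =
          37 + ((10 * k + 7 * k ^ 2) * 13 + 2 * k * 13) := by ring
      rw [e, pow_add, pow_add]
      ring
    _ ≤ N ^ (91 * (k + 1) ^ 2) := by
      refine Nat.pow_le_pow_right hN1 ?_
      nlinarith [Nat.zero_le (k * k)]

/-- The coordinates of the points of `Helper7.PD.hittingSet`. -/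
theorem num_bound {n d r N e : ℕ} (hN : 2 ≤ N) (hd : d * n + 1 ≤ N ^ 5) (hn : n ≤ N ^ 2)
    (hr : r ≤ N ^ e) {a : Fin n → ℕ} (ha : a ∈ Helper7.PD.hittingSet n d r) (i : Fin n) :
    a i ≤ 2 ^ (N ^ (26 + 16 * e)) := by
  have hN1 : 1 ≤ N := by omega
  have hNe : 1 ≤ N ^ e := Nat.one_le_pow _ _ hN1
  have h8 : 2 ^ 8 ≤ N ^ 8 := Nat.pow_le_pow_left hN 8
  have h10 : 2 ^ 10 ≤ N ^ 10 := Nat.pow_le_pow_left hN 10
  have hbase : 2 ^ 8 * (d * n) * r ^ 7 + 2 ≤ N ^ (13 + 7 * e) := by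
    calc 2 ^ 8 * (d * n) * r ^ 7 + 2 ≤ 2 ^ 8 * (d * n) * (N ^ e) ^ 7 + 2 ^ 8 * (N ^ e) ^ 7 := by
          have h1 : r ^ 7 ≤ (N ^ e) ^ 7 := Nat.pow_le_pow_left hr 7
          have h2 : 1 ≤ (N ^ e) ^ 7 := Nat.one_le_pow _ _ hNe
          have h3 := Nat.mul_le_mul_left (2 ^ 8 * (d * n)) h1
          omega
      _ = 2 ^ 8 * (d * n + 1) * (N ^ e) ^ 7 := by ring
      _ ≤ N ^ 8 * N ^ 5 * (N ^ e) ^ 7 := by gcongr
      _ = N ^ (13 + 7 * e) := by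
        rw [← pow_mul, pow_add, mul_comm 7 e]
        ring
  have hexp : 2 ^ 10 * n * r ^ 8 ≤ N ^ (12 + 8 * e) := by
    calc 2 ^ 10 * n * r ^ 8 ≤ N ^ 10 * N ^ 2 * (N ^ e) ^ 8 := by gcongr
      _ = N ^ (12 + 8 * e) := by
        rw [← pow_mul, pow_add, mul_comm 8 e]
        ring
  have hN2N : N ≤ 2 ^ N := Nat.lt_two_pow_self.le
  have hP : 1 ≤ N ^ (12 + 8 * e) := Nat.one_le_pow _ _ hN1
  refine (Helper7.PD.hittingSet_bound ha i).trans ?_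
  calc r * (2 ^ 8 * (d * n) * r ^ 7 + 2) ^ (2 ^ 10 * n * r ^ 8)
      ≤ N ^ e * (N ^ (13 + 7 * e)) ^ (N ^ (12 + 8 * e)) := by
        refine Nat.mul_le_mul hr ?_
        refine (Nat.pow_le_pow_left hbase _).trans ?_
        exact Nat.pow_le_pow_right (Nat.one_le_pow _ _ hN1) hexp
    _ = N ^ (e + (13 + 7 * e) * N ^ (12 + 8 * e)) := by
      rw [← pow_mul, ← pow_add]
    _ ≤ N ^ ((13 + 8 * e) * N ^ (12 + 8 * e)) := by
      refine Nat.pow_le_pow_right hN1 ?_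
      nlinarith [Nat.mul_le_mul_left e hP]
    _ ≤ (2 ^ N) ^ (N ^ (13 + 8 * e) * N ^ (12 + 8 * e)) := by
      refine (Nat.pow_le_pow_left hN2N _).trans ?_
      refine Nat.pow_le_pow_right (Nat.one_le_two_pow) ?_
      exact Nat.mul_le_mul_right _ (num_le_pow hN)
    _ = 2 ^ (N ^ (26 + 16 * e)) := by
      rw [← pow_mul, ← pow_add, ← pow_succ']
      congr 2
      ring

theorem hset_bound {n k s p ρ : ℕ} {a : Fin n → ℕ} (ha : a ∈ hset n k s p ρ) (i : Fin n) :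
    a i ≤ 2 ^ ((n + k + s + p + ρ + 2) ^ (128 * (k + 1) ^ 2)) := by
  have hR := rk_le (n := n) (k := k) (s := s) (p := p) (ρ := ρ)
  have hD' := num_D' (n := n) (k := k) (s := s) (p := p) (ρ := ρ)
  have h1 := num_ksn (n := n) (k := k) (s := s) (p := p) (ρ := ρ)
  have h2 := num_Dn (n := n) (k := k) (s := s) (p := p) (ρ := ρ)
  have h3 := num_kn (n := n) (k := k) (s := s) (p := p) (ρ := ρ)
  have h4 := num_r2 (n := n) (k := k) (s := s) (p := p) (ρ := ρ)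
  rw [hset, Finset.mem_image] at ha
  obtain ⟨⟨c, z', v, z, x⟩, hc, rfl⟩ := ha
  simp only [Finset.mem_product, Finset.mem_range] at hc
  obtain ⟨hc1, hz', hv, hz, hx⟩ := hc
  change c ^ ((i : ℕ) + 1) + z' * v (Fin.castAdd n i) + z * x i ≤ _
  obtain ⟨N, hN⟩ : ∃ N, N = n + k + s + p + ρ + 2 := ⟨_, rfl⟩
  rw [← hN] at hR hD' h1 h2 h3 h4 ⊢
  obtain ⟨e, he⟩ : ∃ e, e = 10 * k + 7 * k ^ 2 := ⟨_, rfl⟩
  rw [← he] at hR
  have hN2 : 2 ≤ N := by omega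
  have hN1 : 1 ≤ N := by omega
  have hN4 : 4 ≤ N ^ 2 := by nlinarith
  have hNN : N ≤ N ^ 2 := by nlinarith
  have hN2N : N ≤ 2 ^ N := Nat.lt_two_pow_self.le
  have hnn : n + n ≤ N ^ 2 := by nlinarith
  have hn : n ≤ N ^ 2 := by omega
  have hv' : v (Fin.castAdd n i) ≤ 2 ^ (N ^ (26 + 16 * e)) := num_bound hN2 h2 hnn hR hv _
  have hx' : x i ≤ 2 ^ (N ^ (26 + 16 * e)) := by
    refine num_bound hN2 (h3.trans (Nat.pow_le_pow_right hN1 (by omega))) hn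
      (h4.trans (Nat.pow_le_pow_right hN1 ?_)) hx _
    rw [he]
    nlinarith [Nat.zero_le (k ^ 2)]
  have hc' : c ^ ((i : ℕ) + 1) ≤ 2 ^ (N ^ (26 + 16 * e)) := by
    have hi : (i : ℕ) + 1 ≤ n := i.2
    have hc2 : c ≤ N ^ 3 := by omega
    calc c ^ ((i : ℕ) + 1) ≤ (N ^ 3) ^ ((i : ℕ) + 1) := Nat.pow_le_pow_left hc2 _
      _ ≤ (N ^ 3) ^ n := Nat.pow_le_pow_right (Nat.one_le_pow _ _ hN1) hi
      _ = N ^ (3 * n) := by rw [← pow_mul]
      _ ≤ (2 ^ N) ^ (3 * n) := Nat.pow_le_pow_left hN2N _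
      _ = 2 ^ (N * (3 * n)) := by rw [← pow_mul]
      _ ≤ 2 ^ (N ^ (26 + 16 * e)) := by
        refine Nat.pow_le_pow_right (by norm_num) ?_
        calc N * (3 * n) ≤ N * (N ^ 2 * N) :=
              Nat.mul_le_mul_left _ (Nat.mul_le_mul (by omega) (by omega))
          _ = N ^ 4 := by ring
          _ ≤ N ^ (26 + 16 * e) := Nat.pow_le_pow_right hN1 (by omega)
  obtain ⟨W, hW⟩ : ∃ W, W = 2 ^ (N ^ (26 + 16 * e)) := ⟨_, rfl⟩
  rw [← hW] at hv' hx' hc'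
  calc c ^ ((i : ℕ) + 1) + z' * v (Fin.castAdd n i) + z * x i
      ≤ W + N ^ 2 * W + N * W := by
        refine Nat.add_le_add (Nat.add_le_add hc' ?_) ?_
        · exact Nat.mul_le_mul (by omega) hv'
        · exact Nat.mul_le_mul (by omega) hx'
    _ = (1 + N ^ 2 + N) * W := by ring
    _ ≤ N ^ 3 * W := by
      refine Nat.mul_le_mul_right _ ?_
      have : N ^ 3 = N * N ^ 2 := by ring
      rw [this]
      nlinarith [Nat.mul_le_mul_right (N ^ 2) hN2]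
    _ ≤ (2 ^ N) ^ 3 * W := Nat.mul_le_mul_right _ (Nat.pow_le_pow_left hN2N 3)
    _ = 2 ^ (N * 3 + N ^ (26 + 16 * e)) := by rw [hW, ← pow_mul, ← pow_add]
    _ ≤ 2 ^ (N ^ (128 * (k + 1) ^ 2)) := by
      refine Nat.pow_le_pow_right (by norm_num) ?_
      calc N * 3 + N ^ (26 + 16 * e) ≤ N ^ (26 + 16 * e) + N ^ (26 + 16 * e) := by
            refine Nat.add_le_add_right ?_ _
            calc N * 3 ≤ N * N ^ 2 := Nat.mul_le_mul_left _ (by omega)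
              _ = N ^ 3 := by ring
              _ ≤ N ^ (26 + 16 * e) := Nat.pow_le_pow_right hN1 (by omega)
        _ = 2 * N ^ (26 + 16 * e) := by ring
        _ ≤ N * N ^ (26 + 16 * e) := Nat.mul_le_mul_right _ hN2
        _ = N ^ (27 + 16 * e) := by
          rw [← pow_succ']
          congr 1
          ring
        _ ≤ N ^ (128 * (k + 1) ^ 2) := by
          refine Nat.pow_le_pow_right hN1 ?_
          rw [he]
          nlinarith [Nat.zero_le (k ^ 2), Nat.zero_le k]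

end Pool.Agent.Helper5.BD
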